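import Mathlib

/-!
# Random subsets of highly connected graphs, part A: components and the drop of the potential
-/

set_option autoImplicit false

namespace Pool.Agent.VSamp

open Finset Classical

variable {V : Type} [Fintype V]

/-- adjacency inside `D` -/
def rel (G : SimpleGraph V) (D : Finset V) (u v : V) : Prop := G.Adj u v ∧ u ∈ D ∧ v ∈ D

/-- reachability inside `D` -/
def rch (G : SimpleGraph V) (D : Finset V) : V → V → Prop := Relation.ReflTransGen (rel G D)

theorem rel.symm {G : SimpleGraph V} {D : Finset V} {u v : V} (h : rel G D u v) : rel G D v u :=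
  ⟨h.1.symm, h.2.2, h.2.1⟩

theorem rch.symm {G : SimpleGraph V} {D : Finset V} {u v : V} (h : rch G D u v) : rch G D v u := by
  induction h with
  | refl => exact Relation.ReflTransGen.refl
  | tail _ h ih => exact Relation.ReflTransGen.head (rel.symm h) ih

theorem rch.trans {G : SimpleGraph V} {D : Finset V} {u v w : V} (h : rch G D u v)
    (h' : rch G D v w) : rch G D u w :=
  Relation.ReflTransGen.trans h h'

theorem rch.mono {G : SimpleGraph V} {D D' : Finset V} (hs : D ⊆ D') {u v : V}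
    (h : rch G D u v) : rch G D' u v := by
  induction h with
  | refl => exact Relation.ReflTransGen.refl
  | tail _ h ih => exact Relation.ReflTransGen.tail ih ⟨h.1, hs h.2.1, hs h.2.2⟩

theorem rch.mem {G : SimpleGraph V} {D : Finset V} {u v : V} (h : rch G D u v) (hu : u ∈ D) :
    v ∈ D := by
  induction h with
  | refl => exact hu
  | tail _ h _ => exact h.2.2

/-- the component of `v` in `G[D]` -/
noncomputable def blk (G : SimpleGraph V) (D : Finset V) (v : V) : Finset V :=
  univ.filter (fun w => rch G D v w)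

theorem mem_blk {G : SimpleGraph V} {D : Finset V} {v w : V} : w ∈ blk G D v ↔ rch G D v w := by
  simp [blk]

theorem self_mem_blk {G : SimpleGraph V} {D : Finset V} (v : V) : v ∈ blk G D v :=
  mem_blk.2 Relation.ReflTransGen.refl

theorem blk_sub {G : SimpleGraph V} {D : Finset V} {v : V} (hv : v ∈ D) : blk G D v ⊆ D :=
  fun _ hw => (mem_blk.1 hw).mem hv

theorem blk_eq {G : SimpleGraph V} {D : Finset V} {v w : V} (h : rch G D v w) :
    blk G D v = blk G D w := by
  ext z
  rw [mem_blk, mem_blk]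
  exact ⟨fun h' => h.symm.trans h', fun h' => h.trans h'⟩

/-- the components of `G[D]` -/
noncomputable def cps (G : SimpleGraph V) (D : Finset V) : Finset (Finset V) := D.image (blk G D)

theorem mem_cps {G : SimpleGraph V} {D A : Finset V} :
    A ∈ cps G D ↔ ∃ v ∈ D, blk G D v = A := by
  simp [cps]

/-- the components adjacent to `x` -/
noncomputable def jst (G : SimpleGraph V) (D : Finset V) (x : V) : Finset (Finset V) :=
  (cps G D).filter (fun A => ∃ a ∈ A, G.Adj x a)

theorem blk_mem_jst {G : SimpleGraph V} {D : Finset V} {x v : V} (hv : v ∈ D) (h : G.Adj x v) :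
    blk G D v ∈ jst G D x :=
  mem_filter.2 ⟨mem_cps.2 ⟨v, hv, rfl⟩, v, self_mem_blk v, h⟩

/-- the undominated vertices -/
noncomputable def und (G : SimpleGraph V) (D : Finset V) : Finset V :=
  univ.filter (fun v => v ∉ D ∧ ∀ w ∈ D, ¬ G.Adj v w)

theorem mem_und {G : SimpleGraph V} {D : Finset V} {v : V} :
    v ∈ und G D ↔ v ∉ D ∧ ∀ w ∈ D, ¬ G.Adj v w := by
  simp [und]

/-- the potential: components plus undominated vertices -/
noncomputable def pot (G : SimpleGraph V) (D : Finset V) : ℕ := (cps G D).card + (und G D).card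

/-- undominated neighbours -/
noncomputable def uu (G : SimpleGraph V) (D : Finset V) (x : V) : Finset V :=
  (und G D).filter (fun w => G.Adj x w)

theorem blk_insert {G : SimpleGraph V} {D : Finset V} {x v : V}
    (h : x ∉ blk G (insert x D) v) : v ∈ D → blk G (insert x D) v = blk G D v ∧
      ∀ a ∈ blk G D v, ¬ G.Adj x a := by
  intro hv
  have hna : ∀ a ∈ blk G D v, ¬ G.Adj x a := by
    intro a ha hxa
    apply h
    rw [mem_blk] at ha ⊢
    have haD : a ∈ D := ha.mem hv
    refine (ha.mono (subset_insert x D)).trans (Relation.ReflTransGen.single ?_)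
    exact ⟨hxa.symm, mem_insert_of_mem haD, mem_insert_self x D⟩
  refine ⟨?_, hna⟩
  ext w
  rw [mem_blk, mem_blk]
  constructor
  · intro hw
    induction hw with
    | refl => exact Relation.ReflTransGen.refl
    | @tail b c _ hbc ih =>
      have hb : b ∈ D := rch.mem ih hv
      rcases mem_insert.1 hbc.2.2 with hc | hc
      · exfalso
        rw [hc] at hbc
        exact hna b (mem_blk.2 ih) hbc.1.symm
      · exact Relation.ReflTransGen.tail ih ⟨hbc.1, hb, hc⟩
  · intro hw
    exact hw.mono (subset_insert x D)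

theorem cps_insert (G : SimpleGraph V) (D : Finset V) (x : V) :
    cps G (insert x D) ⊆ insert (blk G (insert x D) x) (cps G D \ jst G D x) := by
  intro A hA
  obtain ⟨v, hv, rfl⟩ := mem_cps.1 hA
  by_cases hx : x ∈ blk G (insert x D) v
  · rw [blk_eq (mem_blk.1 hx)]
    exact mem_insert_self _ _
  · have hvx : v ≠ x := by
      rintro rfl
      exact hx (self_mem_blk v)
    have hvD : v ∈ D := (mem_insert.1 hv).resolve_left hvx
    obtain ⟨h1, h2⟩ := blk_insert hx hvD
    rw [h1]
    refine mem_insert_of_mem (mem_sdiff.2 ⟨mem_cps.2 ⟨v, hvD, rfl⟩, ?_⟩)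
    intro h3
    obtain ⟨-, a, ha, hxa⟩ := mem_filter.1 h3
    exact h2 a ha hxa

theorem und_insert (G : SimpleGraph V) (D : Finset V) (x : V) :
    und G (insert x D) ⊆ (und G D \ uu G D x).erase x := by
  intro v hv
  rw [mem_und] at hv
  rw [mem_erase, mem_sdiff, mem_und, uu, mem_filter]
  refine ⟨fun h => hv.1 (h ▸ mem_insert_self x D), ⟨fun h => hv.1 (mem_insert_of_mem h),
    fun w hw => hv.2 w (mem_insert_of_mem hw)⟩, fun h => ?_⟩
  exact hv.2 x (mem_insert_self x D) h.2.symm

/-- adding `x` lowers the potential -/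
theorem pot_drop (G : SimpleGraph V) (D : Finset V) (x : V) (hx : x ∉ D) :
    pot G (insert x D) + ((jst G D x).card - 1) + (uu G D x).card ≤ pot G D := by
  have h1 : (cps G (insert x D)).card ≤ (cps G D \ jst G D x).card + 1 :=
    (card_le_card (cps_insert G D x)).trans (card_insert_le _ _)
  have h2 : (cps G D \ jst G D x).card = (cps G D).card - (jst G D x).card :=
    card_sdiff_of_subset (filter_subset _ _)
  have h2' : (jst G D x).card ≤ (cps G D).card := card_le_card (filter_subset _ _)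
  have h3 : (und G D \ uu G D x).card = (und G D).card - (uu G D x).card :=
    card_sdiff_of_subset (filter_subset _ _)
  have h3' : (uu G D x).card ≤ (und G D).card := card_le_card (filter_subset _ _)
  have h4 : (und G (insert x D)).card ≤ ((und G D \ uu G D x).erase x).card :=
    card_le_card (und_insert G D x)
  unfold pot
  by_cases hj : (jst G D x).card = 0
  · have hxu : x ∈ und G D \ uu G D x := by
      rw [mem_sdiff, mem_und, uu, mem_filter]
      refine ⟨⟨hx, fun w hw hxw => ?_⟩, fun h => G.loopless.irrefl x h.2⟩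
      have h5 := blk_mem_jst hw hxw
      rw [card_eq_zero.1 hj] at h5
      exact absurd h5 (notMem_empty _)
    rw [card_erase_of_mem hxu] at h4
    have h6 : 0 < (und G D \ uu G D x).card := card_pos.2 ⟨x, hxu⟩
    omega
  · have h5 : ((und G D \ uu G D x).erase x).card ≤ (und G D \ uu G D x).card := card_erase_le
    omega

/-- the separation form of `N`-connectivity -/
def Sepn (G : SimpleGraph V) (N : ℕ) : Prop :=
  ∀ P Q : Finset V, P.Nonempty → Q.Nonempty → (∀ p ∈ P, ∀ q ∈ Q, p ≠ q ∧ ¬ G.Adj p q) →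
    N ≤ ((P ∪ Q)ᶜ).card

theorem sepn_of_conn (G : SimpleGraph V) (N : ℕ)
    (h : ∀ S : Finset V, S.card < N → (G.induce ((↑S : Set V)ᶜ)).Connected) : Sepn G N := by
  intro P Q hP hQ hPQ
  by_contra hlt
  push Not at hlt
  have hc := h _ hlt
  obtain ⟨p, hp⟩ := hP
  obtain ⟨q, hq⟩ := hQ
  have hp' : p ∈ ((↑((P ∪ Q)ᶜ) : Set V)ᶜ) := by
    simp [hp]
  have hq' : q ∈ ((↑((P ∪ Q)ᶜ) : Set V)ᶜ) := by
    simp [hq]
  obtain ⟨w⟩ := hc.preconnected ⟨p, hp'⟩ ⟨q, hq'⟩
  obtain ⟨d, -, hd1, hd2⟩ := w.exists_boundary_dart {v | v.1 ∈ P} hp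
    (fun hqP => (hPQ q hqP q hq).1 rfl)
  have h3 : d.fst.1 ∈ P := hd1
  have h4 : d.snd.1 ∉ P := hd2
  have h5 : d.snd.1 ∈ P ∪ Q := by
    have h6 := d.snd.2
    by_contra hcon
    exact h6 (by rw [mem_coe, mem_compl]; exact hcon)
  have h7 : d.snd.1 ∈ Q := (mem_union.1 h5).resolve_left h4
  exact (hPQ _ h3 _ h7).2 d.adj

theorem deg_of_sepn (G : SimpleGraph V) (N : ℕ) (h : Sepn G N) (hN : N < Fintype.card V) (v : V) :
    N ≤ (univ.filter (fun w => G.Adj v w)).card := by
  by_contra hlt
  push Not at hlt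
  set Q : Finset V := univ.filter (fun w => w ≠ v ∧ ¬ G.Adj v w) with hQdef
  have hsplit : univ ⊆ insert v (univ.filter (fun w => G.Adj v w)) ∪ Q := by
    intro w _
    by_cases h1 : w = v
    · exact mem_union_left _ (mem_insert.2 (Or.inl h1))
    · by_cases h2 : G.Adj v w
      · exact mem_union_left _ (mem_insert_of_mem (by simp [h2]))
      · exact mem_union_right _ (by simp [hQdef, h1, h2])
  have hQ : Q.Nonempty := by
    rw [nonempty_iff_ne_empty]
    intro hQ0
    rw [hQ0, union_empty] at hsplit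
    have h1 := card_le_card hsplit
    have h2 := card_insert_le v (univ.filter (fun w => G.Adj v w))
    rw [card_univ] at h1
    omega
  have h1 := h {v} Q ⟨v, by simp⟩ hQ (by
    intro p hp q hq
    rw [mem_singleton] at hp
    subst hp
    rw [hQdef, mem_filter] at hq
    exact ⟨fun h => hq.2.1 h.symm, hq.2.2⟩)
  have h2 : ({v} ∪ Q)ᶜ ⊆ univ.filter (fun w => G.Adj v w) := by
    intro w hw
    rw [mem_compl, mem_union, mem_singleton, hQdef, mem_filter] at hw
    push Not at hw
    have h3 := hw.2 (mem_univ w) hw.1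
    simp [h3]
  have h3 := card_le_card h2
  omega

/-- exits of the second kind: `x` is joined to one component only, has no undominated neighbour, and
has a neighbour `z` outside `D` which is not joined to this component -/
noncomputable def cst (G : SimpleGraph V) (D : Finset V) : Finset V :=
  univ.filter (fun x => x ∉ D ∧ (jst G D x).card = 1 ∧ uu G D x = ∅ ∧
    ∃ z, z ∉ D ∧ G.Adj x z ∧ ∀ A ∈ jst G D x, ∀ a ∈ A, ¬ G.Adj z a)

theorem mem_cst {G : SimpleGraph V} {D : Finset V} {x : V} :
    x ∈ cst G D ↔ x ∉ D ∧ (jst G D x).card = 1 ∧ uu G D x = ∅ ∧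
    ∃ z, z ∉ D ∧ G.Adj x z ∧ ∀ A ∈ jst G D x, ∀ a ∈ A, ¬ G.Adj z a := by
  simp [cst]

/-- every component has `N` exits -/
theorem exits (G : SimpleGraph V) (N : ℕ) (h : Sepn G N) (D : Finset V) (hD : 2 ≤ pot G D)
    (A : Finset V) (hA : A ∈ cps G D) :
    N ≤ (Dᶜ.filter (fun x => (2 ≤ (jst G D x).card ∨ 1 ≤ (uu G D x).card ∨ x ∈ cst G D) ∧
      A ∈ jst G D x)).card := by
  obtain ⟨v, hv, rfl⟩ := mem_cps.1 hA
  set A := blk G D v with hAdef
  have hclosed : ∀ a ∈ A, ∀ b ∈ D, G.Adj a b → b ∈ A := by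
    intro a ha b hb hab
    rw [hAdef, mem_blk] at ha ⊢
    exact Relation.ReflTransGen.tail ha ⟨hab, ha.mem hv, hb⟩
  -- a vertex far away
  have hfar : ∃ y, y ∉ A ∧ ∀ a ∈ A, ¬ G.Adj y a := by
    by_cases hu : (und G D).Nonempty
    · obtain ⟨y, hy⟩ := hu
      rw [mem_und] at hy
      exact ⟨y, fun h => hy.1 (blk_sub hv h), fun a ha => hy.2 a (blk_sub hv ha)⟩
    · rw [not_nonempty_iff_eq_empty] at hu
      have h2 : 1 < (cps G D).card := by
        unfold pot at hD
        rw [hu, card_empty] at hD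
        omega
      obtain ⟨B, hB, hne⟩ := exists_mem_ne h2 A
      obtain ⟨w, hw, rfl⟩ := mem_cps.1 hB
      have hwA : w ∉ A := by
        intro hwA
        exact hne (blk_eq (mem_blk.1 hwA)).symm
      exact ⟨w, hwA, fun a ha hwa => hwA (hclosed a ha w hw hwa.symm)⟩
  set Y : Finset V := univ.filter (fun y => y ∉ A ∧ ∀ a ∈ A, ¬ G.Adj y a) with hY
  set X : Finset V := univ.filter (fun x => x ∉ A ∧ x ∉ Y ∧ ∃ z ∈ Y, G.Adj x z) with hX
  have hcompl : (univ.filter (fun x => x ∉ Y ∧ x ∉ X) ∪ Y)ᶜ ⊆ X := by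
    intro x hx
    rw [mem_compl, mem_union, mem_filter] at hx
    by_contra hxX
    exact hx (Or.inl ⟨mem_univ x, fun h => hx (Or.inr h), hxX⟩)
  have hN : N ≤ X.card := by
    refine le_trans (h (univ.filter (fun x => x ∉ Y ∧ x ∉ X)) Y ?_ ?_ ?_) (card_le_card hcompl)
    · refine ⟨v, ?_⟩
      rw [mem_filter]
      refine ⟨mem_univ v, ?_, ?_⟩
      · rw [hY, mem_filter]
        rintro ⟨-, h1, -⟩
        exact h1 (self_mem_blk v)
      · rw [hX, mem_filter]
        rintro ⟨-, h1, -⟩
        exact h1 (self_mem_blk v)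
    · obtain ⟨y, hy⟩ := hfar
      exact ⟨y, by rw [hY, mem_filter]; exact ⟨mem_univ y, hy⟩⟩
    · intro p hp q hq
      rw [mem_filter] at hp
      refine ⟨fun hpq => hp.2.1 (hpq ▸ hq), fun hpq => ?_⟩
      by_cases hpA : p ∈ A
      · rw [hY, mem_filter] at hq
        exact hq.2.2 p hpA hpq.symm
      · apply hp.2.2
        rw [hX, mem_filter]
        exact ⟨mem_univ p, hpA, hp.2.1, q, hq, hpq⟩
  refine hN.trans (card_le_card ?_)
  intro x hx
  rw [hX, mem_filter] at hx
  obtain ⟨-, hxA, hxY, z, hz, hxz⟩ := hx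
  have hadj : ∃ a ∈ A, G.Adj x a := by
    by_contra hcon
    push Not at hcon
    exact hxY (by rw [hY, mem_filter]; exact ⟨mem_univ x, hxA, hcon⟩)
  obtain ⟨a, ha, hxa⟩ := hadj
  have hxD : x ∉ D := fun hxD => hxA (hclosed a ha x hxD hxa.symm)
  have hAj : A ∈ jst G D x := mem_filter.2 ⟨hA, a, ha, hxa⟩
  rw [mem_filter, mem_compl]
  refine ⟨hxD, ?_, hAj⟩
  by_cases hj : 2 ≤ (jst G D x).card
  · exact Or.inl hj
  · right
    by_cases hu : 1 ≤ (uu G D x).card
    · exact Or.inl hu
    right
    have hu0 : uu G D x = ∅ := card_eq_zero.1 (by omega)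
    have hj1 : (jst G D x).card = 1 := by
      have : 0 < (jst G D x).card := card_pos.2 ⟨A, hAj⟩
      omega
    rw [hY, mem_filter] at hz
    have hzD : z ∉ D := by
      intro hzD
      have hB := blk_mem_jst hzD hxz
      obtain ⟨B, hB1⟩ := card_eq_one.1 hj1
      rw [hB1, mem_singleton] at hB hAj
      apply hz.2.1
      rw [hAj, ← hB]
      exact self_mem_blk z
    rw [mem_cst]
    refine ⟨hxD, hj1, hu0, z, hzD, hxz, ?_⟩
    intro B hB b hb
    obtain ⟨C, hC⟩ := card_eq_one.1 hj1
    rw [hC, mem_singleton] at hB hAj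
    rw [hB, ← hAj] at hb
    exact hz.2.2 b hb

/-- the weight of a vertex outside -/
def hh (j u : ℕ) : ℕ := (if 2 ≤ j then j else if j = 1 ∧ 1 ≤ u then 1 else 0) + u

/-- the counting inequality -/
theorem count_main (G : SimpleGraph V) (N : ℕ) (h : Sepn G N) (hN : N < Fintype.card V)
    (D : Finset V) (hD : 2 ≤ pot G D) :
    N * pot G D ≤ ∑ x ∈ Dᶜ, hh (jst G D x).card (uu G D x).card + (cst G D).card := by
  have h1 : N * (cps G D).card ≤ ∑ x ∈ Dᶜ, (if 2 ≤ (jst G D x).card then (jst G D x).card else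
      if (jst G D x).card = 1 ∧ 1 ≤ (uu G D x).card then 1 else 0) + (cst G D).card := by
    have h2 : N * (cps G D).card ≤ ∑ A ∈ cps G D,
        (Dᶜ.filter (fun x => (2 ≤ (jst G D x).card ∨ 1 ≤ (uu G D x).card ∨ x ∈ cst G D) ∧
          A ∈ jst G D x)).card := by
      rw [mul_comm, ← smul_eq_mul, ← sum_const]
      exact sum_le_sum (fun A hA => exits G N h D hD A hA)
    have h3 : ∑ A ∈ cps G D,
        (Dᶜ.filter (fun x => (2 ≤ (jst G D x).card ∨ 1 ≤ (uu G D x).card ∨ x ∈ cst G D) ∧
          A ∈ jst G D x)).card ≤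
        ∑ x ∈ Dᶜ, ((if 2 ≤ (jst G D x).card then (jst G D x).card else
          if (jst G D x).card = 1 ∧ 1 ≤ (uu G D x).card then 1 else 0) +
          if x ∈ cst G D then 1 else 0) := by
      have h4 := sum_card_bipartiteAbove_eq_sum_card_bipartiteBelow (s := cps G D) (t := Dᶜ)
        (fun (A : Finset V) (x : V) => (2 ≤ (jst G D x).card ∨ 1 ≤ (uu G D x).card ∨
          x ∈ cst G D) ∧ A ∈ jst G D x)
      unfold bipartiteAbove bipartiteBelow at h4
      rw [h4]
      apply sum_le_sum
      intro x hx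
      dsimp only
      have h5 : ((cps G D).filter (fun A => (2 ≤ (jst G D x).card ∨ 1 ≤ (uu G D x).card ∨
            x ∈ cst G D) ∧ A ∈ jst G D x)).card ≤ (jst G D x).card := by
        apply card_le_card
        intro A hA
        rw [mem_filter] at hA
        exact hA.2.2
      by_cases hj : 2 ≤ (jst G D x).card
      · rw [if_pos hj]
        omega
      · by_cases hj0 : (jst G D x).card = 0
        · omega
        · have hj1 : (jst G D x).card = 1 := by omega
          by_cases hu : 1 ≤ (uu G D x).card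
          · rw [if_neg hj, if_pos ⟨hj1, hu⟩]
            omega
          · by_cases hc : x ∈ cst G D
            · rw [if_pos hc]
              omega
            · rw [filter_false_of_mem]
              · simp
              · rintro A _ ⟨hA | hA | hA, _⟩
                · exact hj hA
                · exact hu hA
                · exact hc hA
    have h5 : ∑ x ∈ Dᶜ, (if x ∈ cst G D then 1 else 0) ≤ (cst G D).card := by
      rw [← card_filter]
      apply card_le_card
      intro x hx
      exact (mem_filter.1 hx).2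
    rw [sum_add_distrib] at h3
    omega
  have h6 : N * (und G D).card ≤ ∑ x ∈ Dᶜ, (uu G D x).card := by
    have h7 : N * (und G D).card ≤ ∑ w ∈ und G D, (Dᶜ.filter (fun x => G.Adj x w)).card := by
      rw [mul_comm, ← smul_eq_mul, ← sum_const]
      apply sum_le_sum
      intro w hw
      refine (deg_of_sepn G N h hN w).trans (card_le_card ?_)
      intro x hx
      rw [mem_filter] at hx
      rw [mem_und] at hw
      rw [mem_filter, mem_compl]
      exact ⟨fun hxD => hw.2 x hxD hx.2, hx.2.symm⟩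
    refine h7.trans (le_of_eq ?_)
    have h8 := sum_card_bipartiteAbove_eq_sum_card_bipartiteBelow (s := und G D) (t := Dᶜ)
        (fun (w : V) (x : V) => G.Adj x w)
    unfold bipartiteAbove bipartiteBelow at h8
    rw [h8]
    rfl
  unfold pot
  unfold hh
  rw [sum_add_distrib, mul_add]
  omega

theorem pot_empty (G : SimpleGraph V) : pot G ∅ = Fintype.card V := by
  unfold pot cps und
  simp

theorem pot_pos [Nonempty V] (G : SimpleGraph V) (D : Finset V) : 1 ≤ pot G D := by
  rcases D.eq_empty_or_nonempty with rfl | ⟨v, hv⟩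
  · rw [pot_empty]
    exact Fintype.card_pos
  · have h1 : 0 < (cps G D).card := card_pos.2 ⟨_, mem_cps.2 ⟨v, hv, rfl⟩⟩
    unfold pot
    omega

/-- pairs -/
noncomputable def c2 (m : ℕ) : ℝ := (m : ℝ) * ((m : ℝ) - 1) / 2

theorem c2_nonneg (m : ℕ) : 0 ≤ c2 m := by
  unfold c2
  rcases Nat.eq_zero_or_pos m with rfl | hm
  · simp
  · have h1 : (1 : ℝ) ≤ m := by exact_mod_cast hm
    have h2 : (0 : ℝ) ≤ (m : ℝ) - 1 := by linarith
    positivity

/-- the drop of the number of pairs -/
theorem c2_drop (M M' j u : ℕ) (hM' : 1 ≤ M') (h : M' + (j - 1) + u ≤ M) :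
    (hh j u : ℝ) * ((M : ℝ) - 1) / 2 ≤ c2 M - c2 M' := by
  obtain ⟨d, hd⟩ : ∃ d, d = (j - 1) + u := ⟨_, rfl⟩
  have hh1 : hh j u ≤ d + 1 ∧ (d = 0 → hh j u = 0) := by
    unfold hh
    constructor
    · split_ifs <;> omega
    · intro hd0
      have hu : u = 0 := by omega
      have hj : j ≤ 1 := by omega
      rw [if_neg (by omega), if_neg (by omega)]
      omega
  have h2 : M' + d ≤ M := by omega
  obtain ⟨e, he⟩ : ∃ e, M = M' + d + e := ⟨M - (M' + d), by omega⟩
  have hM1 : (1 : ℝ) ≤ M' := by exact_mod_cast hM'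
  have he0 : (0 : ℝ) ≤ e := Nat.cast_nonneg _
  have hd0 : (0 : ℝ) ≤ d := Nat.cast_nonneg _
  unfold c2
  rw [he]
  push_cast
  by_cases hdz : d = 0
  · rw [hh1.2 hdz, hdz]
    push_cast
    nlinarith
  · have hd1 : (1 : ℝ) ≤ d := by
      have : 1 ≤ d := Nat.pos_of_ne_zero hdz
      exact_mod_cast this
    have h3 : (hh j u : ℝ) ≤ d + 1 := by exact_mod_cast hh1.1
    have h4 : (0 : ℝ) ≤ (M' : ℝ) + d + e - 1 := by linarith
    have h5 : (hh j u : ℝ) * ((M' : ℝ) + d + e - 1) ≤ (d + 1) * ((M' : ℝ) + d + e - 1) :=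
      mul_le_mul_of_nonneg_right h3 h4
    have h6 : 0 ≤ ((d : ℝ) - 1) * ((M' : ℝ) - 1 + e) := by
      apply mul_nonneg <;> linarith
    nlinarith [mul_nonneg hd0 he0, mul_nonneg he0 (sub_nonneg.2 hM1), mul_nonneg he0 he0]

end Pool.Agent.VSamp
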