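import Pool.Agent.Lib.MP_dffe52_co.Samp2.A

/-!
# Random subsets of highly connected graphs, part B: the level-preserving exchange
-/

set_option autoImplicit false

namespace Pool.Agent.VSamp

open Finset Classical

variable {V : Type} [Fintype V]

/-- a component is closed -/
theorem blk_closed {G : SimpleGraph V} {D : Finset V} {v a b : V} (hv : v ∈ D)
    (ha : a ∈ blk G D v) (hb : b ∈ D) (hab : G.Adj a b) : b ∈ blk G D v := by
  rw [mem_blk] at ha ⊢
  exact Relation.ReflTransGen.tail ha ⟨hab, ha.mem hv, hb⟩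

/-- reachability after the insertion of `x`, from a component not adjacent to `x` -/
theorem rch_insert {G : SimpleGraph V} {D : Finset V} {x v : V} (hv : v ∈ D)
    (hx : ∀ a ∈ blk G D v, ¬ G.Adj x a) {w : V} (h : rch G (insert x D) v w) : rch G D v w := by
  induction h with
  | refl => exact Relation.ReflTransGen.refl
  | @tail b c _ hbc ih =>
    rcases mem_insert.1 hbc.2.2 with hc | hc
    · exfalso
      rw [hc] at hbc
      exact hx b (mem_blk.2 ih) hbc.1.symm
    · exact Relation.ReflTransGen.tail ih ⟨hbc.1, rch.mem ih hv, hc⟩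

/-- what is reachable from `x` -/
theorem rch_from {G : SimpleGraph V} {D : Finset V} {x v : V} (h : rch G (insert x D) x v) :
    v = x ∨ ∃ A ∈ jst G D x, v ∈ A := by
  induction h with
  | refl => exact Or.inl rfl
  | @tail b c _ hbc ih =>
    rcases mem_insert.1 hbc.2.2 with hc | hc
    · exact Or.inl hc
    · right
      rcases ih with hb | ⟨A, hA, hbA⟩
      · rw [hb] at hbc
        exact ⟨_, blk_mem_jst hc hbc.1, self_mem_blk c⟩
      · refine ⟨A, hA, ?_⟩
        obtain ⟨w, hw, rfl⟩ := mem_cps.1 (mem_filter.1 hA).1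
        exact blk_closed hw hbA hc hbc.1

/-- the addition of an exit of the second kind does not change the potential -/
theorem pot_keep {G : SimpleGraph V} {D : Finset V} {x : V} (hx : x ∈ cst G D) :
    pot G D ≤ pot G (insert x D) := by
  obtain ⟨hxD, hj, hu, -⟩ := mem_cst.1 hx
  obtain ⟨A, hA⟩ := card_eq_one.1 hj
  have hAj : A ∈ jst G D x := by rw [hA]; exact mem_singleton_self A
  obtain ⟨hAc, a, haA, hxa⟩ := mem_filter.1 hAj
  obtain ⟨v, hv, rfl⟩ := mem_cps.1 hAc
  have huniq : ∀ w ∈ D, (∃ b ∈ blk G D w, G.Adj x b) → blk G D w = blk G D v := by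
    intro w hw hb
    have h1 : blk G D w ∈ jst G D x := mem_filter.2 ⟨mem_cps.2 ⟨w, hw, rfl⟩, hb⟩
    rw [hA, mem_singleton] at h1
    exact h1
  have hback : ∀ w ∈ D, ∀ w' ∈ D, rch G (insert x D) w w' → rch G D w w' := by
    intro w hw w' hw' hr
    by_cases h1 : ∃ b ∈ blk G D w, G.Adj x b
    · by_cases h2 : ∃ b ∈ blk G D w', G.Adj x b
      · have h3 := (huniq w hw h1).trans (huniq w' hw' h2).symm
        rw [← mem_blk, h3]
        exact self_mem_blk w'
      · push Not at h2
        exact (rch_insert hw' h2 hr.symm).symm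
    · push Not at h1
      exact rch_insert hw h1 hr
  have h1 : (und G D).card ≤ (und G (insert x D)).card := by
    apply card_le_card
    intro w hw
    have hw' := mem_und.1 hw
    rw [mem_und]
    have hwx : w ≠ x := by
      rintro rfl
      exact hw'.2 a (blk_sub hv haA) hxa
    refine ⟨?_, ?_⟩
    · rw [mem_insert]
      push Not
      exact ⟨hwx, hw'.1⟩
    · intro y hy hwy
      rcases mem_insert.1 hy with rfl | hy
      · have h2 : w ∈ uu G D y := mem_filter.2 ⟨hw, hwy.symm⟩
        rw [hu] at h2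
        exact absurd h2 (notMem_empty _)
      · exact hw'.2 y hy hwy
  have h2 : (cps G D).card ≤ (cps G (insert x D)).card := by
    let f : Finset V → Finset V := fun B =>
      if h : ∃ w ∈ D, blk G (insert x D) w = B then blk G D h.choose else ∅
    apply card_le_card_of_surjOn f
    intro B hB
    obtain ⟨w, hw, rfl⟩ := mem_cps.1 (mem_coe.1 hB)
    refine ⟨blk G (insert x D) w, mem_coe.2 (mem_cps.2 ⟨w, mem_insert_of_mem hw, rfl⟩), ?_⟩
    have hex : ∃ w' ∈ D, blk G (insert x D) w' = blk G (insert x D) w := ⟨w, hw, rfl⟩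
    have h3 := hex.choose_spec
    change (if h : ∃ w' ∈ D, blk G (insert x D) w' = blk G (insert x D) w then
      blk G D h.choose else ∅) = blk G D w
    rw [dif_pos hex]
    apply blk_eq
    apply hback _ h3.1 _ hw
    rw [← mem_blk, h3.2]
    exact self_mem_blk w
  unfold pot
  omega

/-- the chosen outer neighbour -/
noncomputable def zz (G : SimpleGraph V) (D : Finset V) (x : V) : V :=
  if h : x ∈ cst G D then (mem_cst.1 h).2.2.2.choose else x

theorem zz_spec {G : SimpleGraph V} {D : Finset V} {x : V} (h : x ∈ cst G D) :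
    zz G D x ∉ D ∧ G.Adj x (zz G D x) ∧ ∀ A ∈ jst G D x, ∀ a ∈ A, ¬ G.Adj (zz G D x) a := by
  unfold zz
  rw [dif_pos h]
  exact (mem_cst.1 h).2.2.2.choose_spec

theorem zz_mem {G : SimpleGraph V} {D : Finset V} {x : V} (h : x ∈ cst G D) :
    zz G D x ∉ insert x D ∧ 2 ≤ (jst G (insert x D) (zz G D x)).card ∧
      ∀ w ∈ blk G (insert x D) x, G.Adj (zz G D x) w → w = x := by
  obtain ⟨h1, h2, h3⟩ := zz_spec h
  obtain ⟨hxD, hj, hu, -⟩ := mem_cst.1 h
  set z := zz G D x with hz
  have hxz : z ≠ x := (G.ne_of_adj h2).symm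
  have huniq : ∀ w ∈ blk G (insert x D) x, G.Adj z w → w = x := by
    intro w hw hzw
    rcases rch_from (mem_blk.1 hw) with h4 | ⟨A, hA, hwA⟩
    · exact h4
    · exact absurd hzw (h3 A hA w hwA)
  refine ⟨?_, ?_, huniq⟩
  · rw [mem_insert]
    push Not
    exact ⟨hxz, h1⟩
  · -- z is dominated
    have hzu : z ∉ und G D := by
      intro hzu
      have h4 : z ∈ uu G D x := mem_filter.2 ⟨hzu, h2⟩
      rw [hu] at h4
      exact absurd h4 (notMem_empty _)
    obtain ⟨y, hy, hzy⟩ : ∃ y ∈ D, G.Adj z y := by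
      by_contra hcon
      push Not at hcon
      exact hzu (mem_und.2 ⟨h1, hcon⟩)
    have h5 : blk G (insert x D) x ∈ jst G (insert x D) z :=
      blk_mem_jst (mem_insert_self x D) h2.symm
    have h6 : blk G (insert x D) y ∈ jst G (insert x D) z :=
      blk_mem_jst (mem_insert_of_mem hy) hzy
    have hne : blk G (insert x D) x ≠ blk G (insert x D) y := by
      intro h7
      have h8 : y ∈ blk G (insert x D) x := by
        rw [h7]
        exact self_mem_blk y
      have h9 := huniq y h8 hzy
      rw [h9] at hy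
      exact hxD hy
    exact one_lt_card.2 ⟨_, h5, _, h6, hne⟩

/-- the pairs (set, vertex outside, joined to two components) -/
noncomputable def jp (G : SimpleGraph V) : Finset (Finset V × V) :=
  univ.filter (fun t => t.2 ∉ t.1 ∧ 2 ≤ (jst G t.1 t.2).card)

/-- the pairs (set, exit of the second kind) -/
noncomputable def bp (G : SimpleGraph V) : Finset (Finset V × V) :=
  univ.filter (fun t => t.2 ∈ cst G t.1)

theorem exchange (G : SimpleGraph V) (w : ℕ → ℝ) (hw : ∀ m, 0 ≤ w m) (f : ℕ → ℝ)
    (hf : ∀ m, 0 ≤ f m) (hmono : Monotone f) :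
    ∑ D : Finset V, w (D.card + 1) * (((cst G D).card : ℝ) * f (pot G D)) ≤
      ∑ D : Finset V, w D.card *
        ((∑ x ∈ Dᶜ.filter (fun x => 2 ≤ (jst G D x).card), ((jst G D x).card : ℝ)) *
          f (pot G D)) := by
  have h1 : ∑ D : Finset V, w (D.card + 1) * (((cst G D).card : ℝ) * f (pot G D)) =
      ∑ t ∈ bp G, w (t.1.card + 1) * f (pot G t.1) := by
    rw [bp, sum_filter, ← univ_product_univ, sum_product]
    apply sum_congr rfl
    intro D _
    dsimp only
    rw [← sum_filter, sum_const, nsmul_eq_mul]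
    have : (univ.filter (fun x => x ∈ cst G D)) = cst G D := by
      ext x
      simp
    rw [this]
    ring
  have h2 : ∑ D : Finset V, w D.card *
        ((∑ x ∈ Dᶜ.filter (fun x => 2 ≤ (jst G D x).card), ((jst G D x).card : ℝ)) *
          f (pot G D)) =
      ∑ t ∈ jp G, ((jst G t.1 t.2).card : ℝ) * (w t.1.card * f (pot G t.1)) := by
    rw [jp, sum_filter, ← univ_product_univ, sum_product]
    apply sum_congr rfl
    intro D _
    dsimp only
    rw [← sum_filter, sum_mul, mul_sum]
    have : (univ.filter (fun x => x ∉ D ∧ 2 ≤ (jst G D x).card)) =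
        Dᶜ.filter (fun x => 2 ≤ (jst G D x).card) := by
      ext x
      simp
    rw [this]
    apply sum_congr rfl
    intro x _
    ring
  rw [h1, h2]
  let g : Finset V × V → Finset V × V := fun t => (insert t.2 t.1, zz G t.1 t.2)
  have hg : ∀ t ∈ bp G, g t ∈ jp G := by
    intro t ht
    have ht' : t.2 ∈ cst G t.1 := (mem_filter.1 ht).2
    have h3 := zz_mem ht'
    exact mem_filter.2 ⟨mem_univ _, h3.1, h3.2.1⟩
  have h3 : ∑ t ∈ bp G, w (t.1.card + 1) * f (pot G t.1) ≤
      ∑ t ∈ bp G, w (g t).1.card * f (pot G (g t).1) := by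
    apply sum_le_sum
    intro t ht
    have ht' : t.2 ∈ cst G t.1 := (mem_filter.1 ht).2
    have h4 := (mem_cst.1 ht').1
    have h5 := pot_keep ht'
    change w (t.1.card + 1) * f (pot G t.1) ≤
      w (insert t.2 t.1).card * f (pot G (insert t.2 t.1))
    rw [card_insert_of_notMem h4]
    exact mul_le_mul_of_nonneg_left (hmono h5) (hw _)
  refine h3.trans ?_
  rw [← sum_fiberwise_of_maps_to hg]
  apply sum_le_sum
  intro s hs
  have h5 : ∑ t ∈ (bp G).filter (fun t => g t = s), w (g t).1.card * f (pot G (g t).1) =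
      (((bp G).filter (fun t => g t = s)).card : ℝ) * (w s.1.card * f (pot G s.1)) := by
    rw [← nsmul_eq_mul, ← sum_const]
    apply sum_congr rfl
    intro t ht
    rw [(mem_filter.1 ht).2]
  rw [h5]
  apply mul_le_mul_of_nonneg_right _ (mul_nonneg (hw _) (hf _))
  have h6 : ((bp G).filter (fun t => g t = s)).card ≤ (jst G s.1 s.2).card := by
    apply card_le_card_of_injOn (fun t => blk G s.1 t.2)
    · intro t ht
      have ht1 := mem_filter.1 (mem_coe.1 ht)
      have ht' : t.2 ∈ cst G t.1 := (mem_filter.1 ht1.1).2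
      have h7 := zz_spec ht'
      have h8 : insert t.2 t.1 = s.1 := congrArg Prod.fst ht1.2
      have h9 : zz G t.1 t.2 = s.2 := congrArg Prod.snd ht1.2
      apply mem_coe.2
      change blk G s.1 t.2 ∈ jst G s.1 s.2
      apply blk_mem_jst
      · rw [← h8]
        exact mem_insert_self _ _
      · rw [← h9]
        exact h7.2.1.symm
    · intro t ht t' ht' htt
      have ht1 := mem_filter.1 (mem_coe.1 ht)
      have ht2 := mem_filter.1 (mem_coe.1 ht')
      have hb1 : t.2 ∈ cst G t.1 := (mem_filter.1 ht1.1).2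
      have hb2 : t'.2 ∈ cst G t'.1 := (mem_filter.1 ht2.1).2
      have h8 : insert t.2 t.1 = s.1 := congrArg Prod.fst ht1.2
      have h8' : insert t'.2 t'.1 = s.1 := congrArg Prod.fst ht2.2
      have h9 : zz G t.1 t.2 = s.2 := congrArg Prod.snd ht1.2
      have h9' : zz G t'.1 t'.2 = s.2 := congrArg Prod.snd ht2.2
      have htt' : blk G s.1 t.2 = blk G s.1 t'.2 := htt
      have h10 : t'.2 = t.2 := by
        have h11 := (zz_mem hb1).2.2 t'.2 (by
          rw [h8, htt']
          exact self_mem_blk _)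
        apply h11
        rw [h9, ← h9']
        exact (zz_spec hb2).2.1.symm
      have h12 : t.1 = s.1.erase t.2 := by
        rw [← h8, erase_insert (mem_cst.1 hb1).1]
      have h12' : t'.1 = s.1.erase t'.2 := by
        rw [← h8', erase_insert (mem_cst.1 hb2).1]
      apply Prod.ext
      · rw [h12, h12', h10]
      · exact h10.symm
  exact_mod_cast h6

end Pool.Agent.VSamp
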