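import Pool.Agent.Lib.MP_dffe52_co.Samp2.B

/-!
# Random subsets of highly connected graphs, part C: Russo's formula and the differential inequality
-/

set_option autoImplicit false

namespace Pool.Agent.VSamp

open Finset Classical

variable {V : Type} [Fintype V]

/-- expectation over a `p`-random subset -/
noncomputable def EE (g : Finset V → ℝ) (p : ℝ) : ℝ :=
  ∑ D : Finset V, p ^ D.card * (1 - p) ^ (Fintype.card V - D.card) * g D

theorem reindex (φ : Finset V → ℝ) :
    ∑ D : Finset V, ∑ _x ∈ D, φ D = ∑ D : Finset V, ∑ x ∈ Dᶜ, φ (insert x D) := by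
  rw [sum_sigma', sum_sigma']
  refine sum_bij' (fun a _ => ⟨a.1.erase a.2, a.2⟩) (fun a _ => ⟨insert a.2 a.1, a.2⟩)
    ?_ ?_ ?_ ?_ ?_
  · intro a _
    simp
  · intro a _
    simp
  · intro a ha
    have h1 : a.2 ∈ a.1 := (mem_sigma.1 ha).2
    dsimp only
    rw [insert_erase h1]
  · intro a ha
    have h1 : a.2 ∉ a.1 := mem_compl.1 (mem_sigma.1 ha).2
    dsimp only
    rw [erase_insert h1]
  · intro a ha
    have h1 : a.2 ∈ a.1 := (mem_sigma.1 ha).2
    dsimp only
    rw [insert_erase h1]

theorem hasDerivAt_EE (g : Finset V → ℝ) (p : ℝ) :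
    HasDerivAt (EE g) (∑ D : Finset V, ∑ x ∈ Dᶜ,
      p ^ D.card * (1 - p) ^ (Fintype.card V - D.card - 1) * (g (insert x D) - g D)) p := by
  set n := Fintype.card V with hn
  have h1 : ∀ D : Finset V, HasDerivAt
      (fun p : ℝ => p ^ D.card * (1 - p) ^ (n - D.card) * g D)
      (((D.card : ℝ) * p ^ (D.card - 1) * (1 - p) ^ (n - D.card) +
        p ^ D.card * (((n - D.card : ℕ) : ℝ) * (1 - p) ^ (n - D.card - 1) * (-1))) * g D) p := by
    intro D
    have h2 : HasDerivAt (fun p : ℝ => p ^ D.card) ((D.card : ℝ) * p ^ (D.card - 1)) p :=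
      hasDerivAt_pow _ _
    have h3 : HasDerivAt (fun p : ℝ => (1 - p)) (-1) p := by
      simpa using (hasDerivAt_id p).const_sub 1
    have h4 : HasDerivAt (fun p : ℝ => (1 - p) ^ (n - D.card))
        (((n - D.card : ℕ) : ℝ) * (1 - p) ^ (n - D.card - 1) * (-1)) p := h3.pow _
    exact (h2.mul h4).mul_const (g D)
  have h5 : HasDerivAt (EE g) (∑ D : Finset V,
      (((D.card : ℝ) * p ^ (D.card - 1) * (1 - p) ^ (n - D.card) +
        p ^ D.card * (((n - D.card : ℕ) : ℝ) * (1 - p) ^ (n - D.card - 1) * (-1))) * g D)) p := by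
    have h6 := HasDerivAt.fun_sum (u := (univ : Finset (Finset V))) (fun D _ => h1 D)
    exact h6
  have h7 : (∑ D : Finset V,
      (((D.card : ℝ) * p ^ (D.card - 1) * (1 - p) ^ (n - D.card) +
        p ^ D.card * (((n - D.card : ℕ) : ℝ) * (1 - p) ^ (n - D.card - 1) * (-1))) * g D)) =
      ∑ D : Finset V, ∑ x ∈ Dᶜ,
        p ^ D.card * (1 - p) ^ (n - D.card - 1) * (g (insert x D) - g D) := by
    have h8 := reindex (fun D : Finset V => p ^ (D.card - 1) * (1 - p) ^ (n - D.card) * g D)
    have h9 : ∑ D : Finset V, ∑ x ∈ Dᶜ,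
        p ^ D.card * (1 - p) ^ (n - D.card - 1) * (g (insert x D) - g D) =
        ∑ D : Finset V, ∑ x ∈ Dᶜ,
          p ^ ((insert x D).card - 1) * (1 - p) ^ (n - (insert x D).card) * g (insert x D) -
        ∑ D : Finset V, ∑ x ∈ Dᶜ, p ^ D.card * (1 - p) ^ (n - D.card - 1) * g D := by
      rw [← sum_sub_distrib]
      apply sum_congr rfl
      intro D _
      rw [← sum_sub_distrib]
      apply sum_congr rfl
      intro x hx
      rw [card_insert_of_notMem (mem_compl.1 hx), Nat.add_sub_cancel, Nat.sub_add_eq]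
      ring
    rw [h9, ← h8, ← sum_sub_distrib]
    apply sum_congr rfl
    intro D _
    rw [sum_const, sum_const, card_compl, nsmul_eq_mul, nsmul_eq_mul, ← hn]
    ring
  rw [← h7]
  exact h5

/-- total drop of the number of pairs -/
noncomputable def JJ (G : SimpleGraph V) (D : Finset V) : ℝ :=
  ∑ x ∈ Dᶜ, (c2 (pot G D) - c2 (pot G (insert x D)))

/-- the weight of a level -/
noncomputable def fw (m : ℕ) : ℝ := ((m - 1 : ℕ) : ℝ) / 2

theorem fw_nonneg (m : ℕ) : 0 ≤ fw m := by
  unfold fw
  positivity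

theorem fw_mono : Monotone fw := by
  intro a b hab
  unfold fw
  have : ((a - 1 : ℕ) : ℝ) ≤ ((b - 1 : ℕ) : ℝ) := by exact_mod_cast Nat.sub_le_sub_right hab 1
  linarith

theorem fw_eq (m : ℕ) (hm : 1 ≤ m) : fw m = ((m : ℝ) - 1) / 2 := by
  unfold fw
  rw [Nat.cast_sub hm]
  norm_num

theorem drop_le [Nonempty V] (G : SimpleGraph V) (D : Finset V) (x : V) (hx : x ∈ Dᶜ) :
    (hh (jst G D x).card (uu G D x).card : ℝ) * fw (pot G D) ≤
      c2 (pot G D) - c2 (pot G (insert x D)) := by
  have h1 := pot_drop G D x (mem_compl.1 hx)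
  have h2 := c2_drop (pot G D) (pot G (insert x D)) (jst G D x).card (uu G D x).card
    (pot_pos G _) h1
  rw [fw_eq _ (pot_pos G D), ← mul_div_assoc]
  exact h2

theorem sum_le_JJ [Nonempty V] (G : SimpleGraph V) (D : Finset V) :
    ((∑ x ∈ Dᶜ, hh (jst G D x).card (uu G D x).card : ℕ) : ℝ) * fw (pot G D) ≤ JJ G D := by
  rw [Nat.cast_sum, sum_mul]
  exact sum_le_sum (fun x hx => drop_le G D x hx)

theorem JJ_nonneg [Nonempty V] (G : SimpleGraph V) (D : Finset V) : 0 ≤ JJ G D :=
  le_trans (mul_nonneg (Nat.cast_nonneg _) (fw_nonneg _)) (sum_le_JJ G D)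

theorem two_le_JJ [Nonempty V] (G : SimpleGraph V) (D : Finset V) :
    (∑ x ∈ Dᶜ.filter (fun x => 2 ≤ (jst G D x).card), ((jst G D x).card : ℝ)) *
      fw (pot G D) ≤ JJ G D := by
  refine le_trans ?_ (sum_le_JJ G D)
  apply mul_le_mul_of_nonneg_right _ (fw_nonneg _)
  rw [← Nat.cast_sum]
  have h1 : ∑ x ∈ Dᶜ.filter (fun x => 2 ≤ (jst G D x).card), (jst G D x).card ≤
      ∑ x ∈ Dᶜ, hh (jst G D x).card (uu G D x).card := by
    rw [sum_filter]
    apply sum_le_sum
    intro x _
    unfold hh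
    by_cases hj : 2 ≤ (jst G D x).card
    · rw [if_pos hj, if_pos hj]
      exact Nat.le_add_right _ _
    · rw [if_neg hj]
      exact Nat.zero_le _
  exact_mod_cast h1

theorem per_set [Nonempty V] (G : SimpleGraph V) (N : ℕ) (h : Sepn G N)
    (hN : N < Fintype.card V) (D : Finset V) :
    (N : ℝ) * c2 (pot G D) ≤ JJ G D + ((cst G D).card : ℝ) * fw (pot G D) := by
  have hJ := JJ_nonneg G D
  have hC : 0 ≤ ((cst G D).card : ℝ) * fw (pot G D) := mul_nonneg (Nat.cast_nonneg _) (fw_nonneg _)
  by_cases hD : 2 ≤ pot G D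
  · have h1 := count_main G N h hN D hD
    have h2 : ((N * pot G D : ℕ) : ℝ) ≤ ((∑ x ∈ Dᶜ, hh (jst G D x).card (uu G D x).card +
        (cst G D).card : ℕ) : ℝ) := by exact_mod_cast h1
    rw [Nat.cast_mul, Nat.cast_add] at h2
    have h3 := sum_le_JJ G D
    have h4 := mul_le_mul_of_nonneg_right h2 (fw_nonneg (pot G D))
    have h5 : (N : ℝ) * c2 (pot G D) = (N : ℝ) * (pot G D : ℝ) * fw (pot G D) := by
      rw [fw_eq _ (pot_pos G D)]
      unfold c2
      ring
    rw [h5]
    rw [add_mul] at h4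
    linarith
  · have h1 : pot G D = 1 := by
      have := pot_pos G D
      omega
    have h2 : c2 (pot G D) = 0 := by
      rw [h1]
      unfold c2
      norm_num
    rw [h2, mul_zero]
    linarith

theorem diff_ineq [Nonempty V] (G : SimpleGraph V) (N : ℕ) (h : Sepn G N)
    (hN : N < Fintype.card V) (p : ℝ) (hp0 : 0 < p) (hp1 : p < 1) :
    (∑ D : Finset V, ∑ x ∈ Dᶜ,
      p ^ D.card * (1 - p) ^ (Fintype.card V - D.card - 1) *
        (c2 (pot G (insert x D)) - c2 (pot G D))) +
      (N : ℝ) * (p / (1 - p)) * EE (fun D => c2 (pot G D)) p ≤ 0 := by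
  set n := Fintype.card V with hn
  have hq : 0 < 1 - p := by linarith
  set μ : Finset V → ℝ := fun D => p ^ D.card * (1 - p) ^ (n - D.card) with hμ
  have hμ0 : ∀ D, 0 ≤ μ D := fun D => by positivity
  -- the derivative
  have h1 : (∑ D : Finset V, ∑ x ∈ Dᶜ,
      p ^ D.card * (1 - p) ^ (n - D.card - 1) *
        (c2 (pot G (insert x D)) - c2 (pot G D))) =
      - ∑ D : Finset V, p ^ D.card * (1 - p) ^ (n - D.card - 1) * JJ G D := by
    rw [← sum_neg_distrib]
    apply sum_congr rfl
    intro D _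
    rw [JJ, mul_sum, ← sum_neg_distrib]
    apply sum_congr rfl
    intro x _
    ring
  have h2 : ∑ D : Finset V, μ D * JJ G D =
      (1 - p) * ∑ D : Finset V, p ^ D.card * (1 - p) ^ (n - D.card - 1) * JJ G D := by
    rw [mul_sum]
    apply sum_congr rfl
    intro D _
    by_cases hD : D = univ
    · have : JJ G D = 0 := by
        unfold JJ
        rw [hD, compl_univ, sum_empty]
      rw [this]
      ring
    · have hlt : D.card < n := by
        rw [hn, ← card_univ]
        exact card_lt_card ((subset_univ D).ssubset_of_ne hD)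
      have h9 : n - D.card = (n - D.card - 1) + 1 := by omega
      rw [hμ]
      dsimp only
      have h10 : (1 - p) ^ (n - D.card) = (1 - p) ^ (n - D.card - 1) * (1 - p) := by
        conv_lhs => rw [h9]
        rw [pow_succ]
      rw [h10]
      ring
  -- sum of the pointwise inequality
  have h3 : (N : ℝ) * EE (fun D => c2 (pot G D)) p ≤
      ∑ D : Finset V, μ D * JJ G D +
        ∑ D : Finset V, μ D * (((cst G D).card : ℝ) * fw (pot G D)) := by
    unfold EE
    rw [mul_sum, ← sum_add_distrib]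
    apply sum_le_sum
    intro D _
    have h4 := per_set G N h hN D
    have h5 := mul_le_mul_of_nonneg_left h4 (hμ0 D)
    calc (N : ℝ) * (p ^ D.card * (1 - p) ^ (n - D.card) * c2 (pot G D))
        = μ D * ((N : ℝ) * c2 (pot G D)) := by rw [hμ]; ring
      _ ≤ μ D * (JJ G D + ((cst G D).card : ℝ) * fw (pot G D)) := h5
      _ = μ D * JJ G D + μ D * (((cst G D).card : ℝ) * fw (pot G D)) := by ring
  -- exchange
  have h6 : p * ∑ D : Finset V, μ D * (((cst G D).card : ℝ) * fw (pot G D)) ≤
      (1 - p) * ∑ D : Finset V, μ D * JJ G D := by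
    have h7 := exchange G (fun m => p ^ m * (1 - p) ^ (n - m)) (fun m => by positivity)
      fw fw_nonneg fw_mono
    have h8 : p * ∑ D : Finset V, μ D * (((cst G D).card : ℝ) * fw (pot G D)) = (1 - p) *
        ∑ D : Finset V, (p ^ (D.card + 1) * (1 - p) ^ (n - (D.card + 1))) *
          (((cst G D).card : ℝ) * fw (pot G D)) := by
      rw [mul_sum, mul_sum]
      apply sum_congr rfl
      intro D _
      by_cases hb : (cst G D).card = 0
      · rw [hb]
        simp
      · obtain ⟨x, hx⟩ := card_pos.1 (Nat.pos_of_ne_zero hb)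
        have hx' := (mem_cst.1 hx).1
        have hlt : D.card < n := by
          rw [hn, ← card_univ]
          exact card_lt_card ⟨subset_univ D, fun hsub => hx' (hsub (mem_univ x))⟩
        have h9 : n - D.card = (n - (D.card + 1)) + 1 := by omega
        rw [hμ]
        dsimp only
        rw [h9, pow_succ, pow_succ]
        ring
    rw [h8]
    have h10 : ∑ D : Finset V, (p ^ D.card * (1 - p) ^ (n - D.card)) *
        ((∑ x ∈ Dᶜ.filter (fun x => 2 ≤ (jst G D x).card), ((jst G D x).card : ℝ)) *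
          fw (pot G D)) ≤
        ∑ D : Finset V, μ D * JJ G D := by
      apply sum_le_sum
      intro D _
      exact mul_le_mul_of_nonneg_left (two_le_JJ G D) (hμ0 D)
    exact mul_le_mul_of_nonneg_left (h7.trans h10) hq.le
  rw [h1]
  set E := EE (fun D => c2 (pot G D)) p with hE
  set S := ∑ D : Finset V, p ^ D.card * (1 - p) ^ (n - D.card - 1) * JJ G D with hS
  set T := ∑ D : Finset V, μ D * JJ G D with hT
  set B := ∑ D : Finset V, μ D * (((cst G D).card : ℝ) * fw (pot G D)) with hB
  have h12 : p * ((N : ℝ) * E) ≤ T := by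
    have := mul_le_mul_of_nonneg_left h3 hp0.le
    nlinarith
  have h13 : (N : ℝ) * (p / (1 - p)) * E = (p * ((N : ℝ) * E)) / (1 - p) := by
    field_simp
  rw [h13]
  have h14 : (p * ((N : ℝ) * E)) / (1 - p) ≤ S := by
    rw [div_le_iff₀ hq]
    linarith
  linarith

theorem EE_zero (g : Finset V → ℝ) : EE g 0 = g ∅ := by
  unfold EE
  rw [sum_eq_single ∅]
  · simp
  · intro D _ hD
    have : D.card ≠ 0 := fun h => hD (card_eq_zero.1 h)
    simp [this]
  · intro h
    exact absurd (mem_univ _) h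

/-- the expected number of pairs of components is exponentially small -/
theorem expected [Nonempty V] (G : SimpleGraph V) (N : ℕ) (h : Sepn G N)
    (hN : N < Fintype.card V) (q : ℝ) (hq0 : 0 ≤ q) (hq1 : q < 1) :
    EE (fun D => c2 (pot G D)) q ≤
      c2 (Fintype.card V) * Real.exp ((N : ℝ) * (q + Real.log (1 - q))) := by
  set g : Finset V → ℝ := fun D => c2 (pot G D) with hg
  set f : ℝ → ℝ := fun p => EE g p * Real.exp (-((N : ℝ) * (p + Real.log (1 - p)))) with hf
  have hder : ∀ x : ℝ, x < 1 → HasDerivAt f ((∑ D : Finset V, ∑ y ∈ Dᶜ,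
      x ^ D.card * (1 - x) ^ (Fintype.card V - D.card - 1) * (g (insert y D) - g D)) *
        Real.exp (-((N : ℝ) * (x + Real.log (1 - x)))) +
      EE g x * (Real.exp (-((N : ℝ) * (x + Real.log (1 - x)))) *
        ((N : ℝ) * (x / (1 - x))))) x := by
    intro x hx
    have hx0 : (1 : ℝ) - x ≠ 0 := by linarith
    have h1 := hasDerivAt_EE g x
    have h2 : HasDerivAt (fun x : ℝ => -((N : ℝ) * (x + Real.log (1 - x))))
        ((N : ℝ) * (x / (1 - x))) x := by
      have h3 : HasDerivAt (fun x : ℝ => (1 - x)) (-1) x := by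
        simpa using (hasDerivAt_id x).const_sub 1
      have h4 := h3.log hx0
      have h5 := (((hasDerivAt_id x).add h4).const_mul (N : ℝ)).neg
      have h6 : -((N : ℝ) * (1 + -1 / (1 - x))) = (N : ℝ) * (x / (1 - x)) := by
        field_simp
        ring
      rw [h6] at h5
      exact h5
    exact h1.mul h2.exp
  have hanti : AntitoneOn f (Set.Icc 0 q) := by
    apply antitoneOn_of_deriv_nonpos (convex_Icc 0 q)
    · exact fun x hx => (hder x (lt_of_le_of_lt hx.2 hq1)).continuousAt.continuousWithinAt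
    · intro x hx
      rw [interior_Icc] at hx
      exact (hder x (lt_trans hx.2 hq1)).differentiableAt.differentiableWithinAt
    · intro x hx
      rw [interior_Icc] at hx
      rw [(hder x (lt_trans hx.2 hq1)).deriv]
      have h1 := diff_ineq G N h hN x hx.1 (lt_trans hx.2 hq1)
      have h2 : (∑ D : Finset V, ∑ y ∈ Dᶜ,
          x ^ D.card * (1 - x) ^ (Fintype.card V - D.card - 1) * (g (insert y D) - g D)) *
            Real.exp (-((N : ℝ) * (x + Real.log (1 - x)))) +
          EE g x * (Real.exp (-((N : ℝ) * (x + Real.log (1 - x)))) *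
            ((N : ℝ) * (x / (1 - x)))) =
          ((∑ D : Finset V, ∑ y ∈ Dᶜ,
            x ^ D.card * (1 - x) ^ (Fintype.card V - D.card - 1) * (g (insert y D) - g D)) +
            (N : ℝ) * (x / (1 - x)) * EE g x) *
              Real.exp (-((N : ℝ) * (x + Real.log (1 - x)))) := by ring
      rw [h2]
      exact mul_nonpos_of_nonpos_of_nonneg h1 (Real.exp_pos _).le
  have h3 := hanti (Set.left_mem_Icc.2 hq0) (Set.right_mem_Icc.2 hq0) hq0
  have h4 : f 0 = c2 (Fintype.card V) := by
    rw [hf]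
    dsimp only
    rw [EE_zero, hg]
    dsimp only
    rw [pot_empty]
    simp
  rw [h4] at h3
  have h5 : EE g q = f q * Real.exp ((N : ℝ) * (q + Real.log (1 - q))) := by
    rw [hf]
    dsimp only
    rw [mul_assoc, ← Real.exp_add]
    simp
  rw [h5]
  exact mul_le_mul_of_nonneg_right h3 (Real.exp_pos _).le

end Pool.Agent.VSamp
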