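import Pool.Agent.Lib.MP_dffe52_co.Samp2.C

/-!
# Random subsets of highly connected graphs, part D: robust connected dominating sets
-/

set_option autoImplicit false

namespace Pool.Agent.VSamp

open Finset Classical

variable {V : Type} [Fintype V]

/-- connected and dominating, in terms of walks inside `D` -/
def Good (G : SimpleGraph V) (D : Finset V) : Prop :=
  (∀ u ∈ D, ∀ v ∈ D, rch G D u v) ∧ ∀ v, v ∉ D → ∃ w ∈ D, G.Adj v w

/-- good after the deletion of any at most `m` vertices -/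
def Rob (G : SimpleGraph V) (T : Finset V) (m : ℕ) : Prop :=
  ∀ Y : Finset V, Y.card ≤ m → Good G (T \ Y)

theorem good_of_pot (G : SimpleGraph V) (hV : 2 ≤ Fintype.card V) (D : Finset V)
    (h : pot G D ≤ 1) : Good G D := by
  constructor
  · intro u hu v hv
    by_contra hcon
    have h1 : blk G D u ∈ cps G D := mem_cps.2 ⟨u, hu, rfl⟩
    have h2 : blk G D v ∈ cps G D := mem_cps.2 ⟨v, hv, rfl⟩
    have hne : blk G D u ≠ blk G D v := by
      intro h3
      apply hcon
      rw [← mem_blk, h3]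
      exact self_mem_blk v
    have h4 : 1 < (cps G D).card := one_lt_card.2 ⟨_, h1, _, h2, hne⟩
    unfold pot at h
    omega
  · intro v hv
    by_contra hcon
    push Not at hcon
    have h1 : 0 < (und G D).card := card_pos.2 ⟨v, mem_und.2 ⟨hv, hcon⟩⟩
    have h2 : (cps G D).card = 0 := by
      unfold pot at h
      omega
    have h3 : D = ∅ := by
      rw [eq_empty_iff_forall_notMem]
      intro w hw
      have h4 : blk G D w ∈ cps G D := mem_cps.2 ⟨w, hw, rfl⟩
      rw [card_eq_zero.1 h2] at h4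
      exact absurd h4 (notMem_empty _)
    rw [h3, pot_empty] at h
    omega

/-- indicator of failure -/
noncomputable def ind (P : Prop) : ℝ := if P then 0 else 1

theorem ind_nonneg (P : Prop) : 0 ≤ ind P := by
  unfold ind
  split_ifs <;> norm_num

theorem EE_mono {g g' : Finset V → ℝ} (h : ∀ D, g D ≤ g' D) {p : ℝ} (hp0 : 0 ≤ p)
    (hp1 : p ≤ 1) : EE g p ≤ EE g' p := by
  unfold EE
  apply sum_le_sum
  intro D _
  have h1 : 0 ≤ 1 - p := by linarith
  exact mul_le_mul_of_nonneg_left (h D) (by positivity)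

theorem EE_add (g g' : Finset V → ℝ) (p : ℝ) : EE (fun D => g D + g' D) p = EE g p + EE g' p := by
  unfold EE
  rw [← sum_add_distrib]
  apply sum_congr rfl
  intro D _
  ring

theorem EE_one (p : ℝ) : EE (fun _ : Finset V => (1 : ℝ)) p = 1 := by
  unfold EE
  have h1 := Finset.sum_pow_mul_eq_add_pow p (1 - p) (univ : Finset V)
  rw [powerset_univ, card_univ] at h1
  simp only [mul_one]
  rw [h1]
  simp

/-- failure probability of a random set -/
theorem bad_le (G : SimpleGraph V) (N : ℕ) (h : Sepn G N) (hN : N < Fintype.card V)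
    (hV : 2 ≤ Fintype.card V) (q : ℝ) (hq0 : 0 ≤ q) (hq1 : q < 1) :
    EE (fun D => ind (Good G D)) q ≤
      c2 (Fintype.card V) * Real.exp ((N : ℝ) * (q + Real.log (1 - q))) := by
  have : Nonempty V := Fintype.card_pos_iff.1 (by omega)
  refine le_trans (EE_mono ?_ hq0 hq1.le) (expected G N h hN q hq0 hq1)
  intro D
  unfold ind
  by_cases hg : Good G D
  · rw [if_pos hg]
    exact c2_nonneg _
  · rw [if_neg hg]
    have h8 : 2 ≤ pot G D := by
      by_contra hcon
      exact hg (good_of_pot G hV D (by omega))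
    have h9 : (2 : ℝ) ≤ (pot G D : ℝ) := by exact_mod_cast h8
    unfold c2
    nlinarith

/-- a failing set has many failing subsets -/
theorem many_bad (G : SimpleGraph V) (T Y : Finset V) (h : ¬ Good G (T \ Y)) (ρ : ℝ)
    (h0 : 0 < ρ) (h1 : ρ < 1) :
    ρ ^ 2 * (1 - ρ) ^ Y.card ≤
      ∑ D ∈ T.powerset, ρ ^ D.card * (1 - ρ) ^ (T.card - D.card) * ind (Good G D) := by
  have h1' : 0 < 1 - ρ := by linarith
  set Q := T \ Y with hQ
  obtain ⟨E, hEQ, hE2, hE⟩ : ∃ E : Finset V, E ⊆ Q ∧ E.card ≤ 2 ∧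
      ∀ D, E ⊆ D → D ⊆ Q → ¬ Good G D := by
    unfold Good at h
    rw [not_and_or] at h
    rcases h with h | h
    · push Not at h
      obtain ⟨u, hu, v, hv, huv⟩ := h
      refine ⟨{u, v}, ?_, card_le_two, ?_⟩
      · intro w hw
        rw [mem_insert, mem_singleton] at hw
        rcases hw with rfl | rfl
        · exact hu
        · exact hv
      · intro D hD1 hD2 hg
        have hu' : u ∈ D := hD1 (mem_insert_self u _)
        have hv' : v ∈ D := hD1 (mem_insert_of_mem (mem_singleton_self v))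
        exact huv ((hg.1 u hu' v hv').mono hD2)
    · push Not at h
      obtain ⟨v, hv, hvw⟩ := h
      refine ⟨∅, empty_subset _, by simp, ?_⟩
      intro D _ hD2 hg
      obtain ⟨w, hw, hvw'⟩ := hg.2 v (fun h => hv (hD2 h))
      exact hvw w (hD2 hw) hvw'
  have key : ∀ A : Finset V, A ⊆ Q \ E → (A ∪ E) \ E = A := by
    intro A hA
    ext w
    rw [mem_sdiff, mem_union]
    constructor
    · rintro ⟨h4 | h4, h5⟩
      · exact h4
      · exact absurd h4 h5
    · intro h4
      exact ⟨Or.inl h4, (mem_sdiff.1 (hA h4)).2⟩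
  have hinj : Set.InjOn (fun D => D ∪ E) (((Q \ E).powerset : Finset (Finset V)) : Set _) := by
    intro D hD D' hD' hDD
    have h2 : D ⊆ Q \ E := mem_powerset.1 (mem_coe.1 hD)
    have h3 : D' ⊆ Q \ E := mem_powerset.1 (mem_coe.1 hD')
    have hDD' : D ∪ E = D' ∪ E := hDD
    rw [← key D h2, ← key D' h3, hDD']
  have hsub : (Q \ E).powerset.image (fun D => D ∪ E) ⊆ T.powerset := by
    intro D hD
    obtain ⟨D', hD', rfl⟩ := mem_image.1 hD
    rw [mem_powerset] at hD' ⊢
    exact (union_subset (hD'.trans sdiff_subset) hEQ).trans sdiff_subset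
  have hstep : ∑ D ∈ (Q \ E).powerset.image (fun D => D ∪ E),
      ρ ^ D.card * (1 - ρ) ^ (T.card - D.card) * ind (Good G D) ≤
      ∑ D ∈ T.powerset, ρ ^ D.card * (1 - ρ) ^ (T.card - D.card) * ind (Good G D) := by
    apply sum_le_sum_of_subset_of_nonneg hsub
    intro D _ _
    exact mul_nonneg (by positivity) (ind_nonneg _)
  refine le_trans ?_ hstep
  rw [sum_image hinj]
  have hcE : (Q \ E).card + E.card = Q.card := card_sdiff_add_card_eq_card hEQ
  have hcQ : Q.card ≤ T.card := card_le_card sdiff_subset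
  have hcY : T.card ≤ Y.card + Q.card := by
    rw [hQ]
    have := card_le_card_sdiff_add_card (s := T) (t := Y)
    omega
  have hval : ∀ D ∈ (Q \ E).powerset,
      ρ ^ (D ∪ E).card * (1 - ρ) ^ (T.card - (D ∪ E).card) * ind (Good G (D ∪ E)) =
      (ρ ^ E.card * (1 - ρ) ^ (T.card - Q.card)) *
        (ρ ^ D.card * (1 - ρ) ^ ((Q \ E).card - D.card)) := by
    intro D hD
    rw [mem_powerset] at hD
    have hbad : ¬ Good G (D ∪ E) :=
      hE _ subset_union_right (union_subset (hD.trans sdiff_subset) hEQ)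
    have hdis : Disjoint D E := by
      rw [disjoint_left]
      intro w hw hwE
      exact (mem_sdiff.1 (hD hw)).2 hwE
    have hc : (D ∪ E).card = D.card + E.card := card_union_of_disjoint hdis
    have hcD : D.card ≤ (Q \ E).card := card_le_card hD
    have he : T.card - (D.card + E.card) = (T.card - Q.card) + ((Q \ E).card - D.card) := by omega
    unfold ind
    rw [if_neg hbad, hc, he, pow_add, pow_add]
    ring
  rw [sum_congr rfl hval, ← mul_sum, Finset.sum_pow_mul_eq_add_pow]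
  have h5 : ρ + (1 - ρ) = 1 := by ring
  rw [h5, one_pow, mul_one]
  have h6 : ρ ^ 2 ≤ ρ ^ E.card := pow_le_pow_of_le_one h0.le h1.le hE2
  have h7 : (1 - ρ) ^ Y.card ≤ (1 - ρ) ^ (T.card - Q.card) :=
    pow_le_pow_of_le_one h1'.le (by linarith) (by omega)
  exact mul_le_mul h6 h7 (by positivity) (by positivity)

/-- failure probability of robustness of the complement -/
theorem rob_prob (G : SimpleGraph V) (m : ℕ) (s ρ : ℝ) (hs0 : 0 ≤ s) (hs1 : s ≤ 1)
    (h0 : 0 < ρ) (h1 : ρ < 1) :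
    (ρ ^ 2 * (1 - ρ) ^ m) * EE (fun S => ind (Rob G Sᶜ m)) s ≤
      EE (fun D => ind (Good G D)) ((1 - s) * ρ) := by
  set n := Fintype.card V with hn
  have h1' : 0 < 1 - ρ := by linarith
  have hs1' : 0 ≤ 1 - s := by linarith
  have hA : (ρ ^ 2 * (1 - ρ) ^ m) * EE (fun S => ind (Rob G Sᶜ m)) s ≤
      ∑ S : Finset V, s ^ S.card * (1 - s) ^ (n - S.card) *
        ∑ D ∈ Sᶜ.powerset, ρ ^ D.card * (1 - ρ) ^ (Sᶜ.card - D.card) * ind (Good G D) := by
    unfold EE
    rw [mul_sum]
    apply sum_le_sum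
    intro S _
    dsimp only
    have hw : 0 ≤ s ^ S.card * (1 - s) ^ (n - S.card) := by positivity
    have hsum0 : 0 ≤ ∑ D ∈ Sᶜ.powerset,
        ρ ^ D.card * (1 - ρ) ^ (Sᶜ.card - D.card) * ind (Good G D) :=
      sum_nonneg (fun D _ => mul_nonneg (by positivity) (ind_nonneg _))
    by_cases hR : Rob G Sᶜ m
    · have : ind (Rob G Sᶜ m) = 0 := if_pos hR
      rw [this, mul_zero, mul_zero]
      exact mul_nonneg hw hsum0
    · have h2 : ind (Rob G Sᶜ m) = 1 := if_neg hR
      rw [h2, mul_one]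
      have hR' := hR
      unfold Rob at hR'
      push Not at hR'
      obtain ⟨Y, hY, hbad⟩ := hR'
      have h3 := many_bad G Sᶜ Y hbad ρ h0 h1
      have h4 : (1 - ρ) ^ m ≤ (1 - ρ) ^ Y.card :=
        pow_le_pow_of_le_one h1'.le (by linarith) hY
      have h5 : ρ ^ 2 * (1 - ρ) ^ m ≤ ρ ^ 2 * (1 - ρ) ^ Y.card :=
        mul_le_mul_of_nonneg_left h4 (by positivity)
      rw [mul_comm]
      exact mul_le_mul_of_nonneg_left (h5.trans h3) hw
  refine hA.trans (le_of_eq ?_)
  have hB : ∀ S : Finset V, s ^ S.card * (1 - s) ^ (n - S.card) *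
        ∑ D ∈ Sᶜ.powerset, ρ ^ D.card * (1 - ρ) ^ (Sᶜ.card - D.card) * ind (Good G D) =
      ∑ D : Finset V, if D ⊆ Sᶜ then s ^ S.card * (1 - s) ^ (n - S.card) *
        (ρ ^ D.card * (1 - ρ) ^ (Sᶜ.card - D.card)) * ind (Good G D) else 0 := by
    intro S
    rw [mul_sum, ← sum_filter]
    have : (univ.filter (fun D : Finset V => D ⊆ Sᶜ)) = Sᶜ.powerset := by
      ext D
      simp
    rw [this]
    apply sum_congr rfl
    intro D _
    ring
  rw [sum_congr rfl (fun S _ => hB S), sum_comm]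
  unfold EE
  apply sum_congr rfl
  intro D _
  rw [← hn, ← sum_filter]
  have h5 : (univ.filter (fun S : Finset V => D ⊆ Sᶜ)) = Dᶜ.powerset := by
    ext S
    rw [mem_filter, mem_powerset]
    constructor
    · rintro ⟨-, h6⟩
      exact subset_compl_comm.1 h6
    · intro h6
      exact ⟨mem_univ _, subset_compl_comm.1 h6⟩
  rw [h5]
  have hDn : D.card ≤ n := card_le_univ D
  have hDc : Dᶜ.card = n - D.card := card_compl D
  have hval : ∀ S ∈ Dᶜ.powerset, s ^ S.card * (1 - s) ^ (n - S.card) *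
        (ρ ^ D.card * (1 - ρ) ^ (Sᶜ.card - D.card)) * ind (Good G D) =
      (((1 - s) * ρ) ^ D.card * ind (Good G D)) *
        (s ^ S.card * ((1 - s) * (1 - ρ)) ^ (Dᶜ.card - S.card)) := by
    intro S hS
    rw [mem_powerset] at hS
    have hSD := card_le_card hS
    rw [hDc] at hSD ⊢
    have hSc : Sᶜ.card = n - S.card := card_compl S
    have e1 : n - S.card = D.card + (n - D.card - S.card) := by omega
    have e2 : Sᶜ.card - D.card = n - D.card - S.card := by omega
    rw [e2, e1, pow_add, mul_pow, mul_pow]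
    ring
  rw [sum_congr rfl hval, ← mul_sum, Finset.sum_pow_mul_eq_add_pow, hDc]
  have h6 : s + (1 - s) * (1 - ρ) = 1 - (1 - s) * ρ := by ring
  rw [h6]
  ring

/-- reflection -/
theorem EE_reflect (g : Finset V → ℝ) (s : ℝ) : EE (fun S => g Sᶜ) s = EE g (1 - s) := by
  unfold EE
  refine sum_bij' (fun S _ => Sᶜ) (fun S _ => Sᶜ) ?_ ?_ ?_ ?_ ?_
  · intro S _
    exact mem_univ _
  · intro S _
    exact mem_univ _
  · intro S _
    exact compl_compl S
  · intro S _
    exact compl_compl S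
  · intro S _
    have hSn : S.card ≤ Fintype.card V := card_le_univ S
    have h1 : Sᶜ.card = Fintype.card V - S.card := card_compl S
    have h2 : Fintype.card V - (Fintype.card V - S.card) = S.card := by omega
    have h3 : 1 - (1 - s) = s := by ring
    rw [h1, h2, h3]
    ring

/-- failure probability of robustness of the set itself -/
theorem rob_prob' (G : SimpleGraph V) (m : ℕ) (s ρ : ℝ) (hs0 : 0 ≤ s) (hs1 : s ≤ 1)
    (h0 : 0 < ρ) (h1 : ρ < 1) :
    (ρ ^ 2 * (1 - ρ) ^ m) * EE (fun S => ind (Rob G S m)) s ≤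
      EE (fun D => ind (Good G D)) (s * ρ) := by
  have h2 := rob_prob G m (1 - s) ρ (by linarith) (by linarith) h0 h1
  have h3 : EE (fun S => ind (Rob G Sᶜ m)) (1 - s) = EE (fun S => ind (Rob G S m)) s := by
    rw [EE_reflect (fun S => ind (Rob G S m)) (1 - s)]
    congr 1
    ring
  rw [h3] at h2
  have h4 : (1 - (1 - s)) * ρ = s * ρ := by ring
  rw [h4] at h2
  exact h2

theorem exists_of_two (s : ℝ) (A B : Finset V → Prop) (hs0 : 0 ≤ s) (hs1 : s ≤ 1)
    (h : EE (fun S => ind (A S)) s + EE (fun S => ind (B S)) s < 1) :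
    ∃ S, A S ∧ B S := by
  by_contra hcon
  push Not at hcon
  have h1 : EE (fun _ : Finset V => (1 : ℝ)) s ≤ EE (fun S => ind (A S) + ind (B S)) s := by
    apply EE_mono _ hs0 hs1
    intro S
    by_cases hA : A S
    · have hB : ind (B S) = 1 := if_neg (hcon S hA)
      rw [hB]
      linarith [ind_nonneg (A S)]
    · have hA' : ind (A S) = 1 := if_neg hA
      rw [hA']
      linarith [ind_nonneg (B S)]
  rw [EE_one, EE_add] at h1
  linarith

/-- a connected dominating set with robust complement -/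
theorem exists_robust (G : SimpleGraph V) (N m : ℕ) (h : Sepn G N) (hN : N < Fintype.card V)
    (hV : 2 ≤ Fintype.card V) (s ρ : ℝ) (hs0 : 0 < s) (hs1 : s < 1) (h0 : 0 < ρ) (h1 : ρ < 1)
    (hnum : c2 (Fintype.card V) * Real.exp ((N : ℝ) * (s + Real.log (1 - s))) +
      c2 (Fintype.card V) * Real.exp ((N : ℝ) * ((1 - s) * ρ + Real.log (1 - (1 - s) * ρ))) /
        (ρ ^ 2 * (1 - ρ) ^ m) < 1) :
    ∃ S : Finset V, Good G S ∧ Rob G Sᶜ m := by
  have h1' : 0 < 1 - ρ := by linarith
  have hs1' : 0 < 1 - s := by linarith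
  apply exists_of_two s _ _ hs0.le hs1.le
  have hA := bad_le G N h hN hV s hs0.le hs1
  have hq0 : 0 ≤ (1 - s) * ρ := by positivity
  have hq1 : (1 - s) * ρ < 1 := by nlinarith
  have hB := (rob_prob G m s ρ hs0.le hs1.le h0 h1).trans (bad_le G N h hN hV _ hq0 hq1)
  have hpos : 0 < ρ ^ 2 * (1 - ρ) ^ m := by positivity
  rw [mul_comm, ← le_div_iff₀ hpos] at hB
  linarith

/-- both sides robust -/
theorem exists_robust2 (G : SimpleGraph V) (N m m' : ℕ) (h : Sepn G N)
    (hN : N < Fintype.card V) (hV : 2 ≤ Fintype.card V) (s ρ ρ' : ℝ) (hs0 : 0 < s) (hs1 : s < 1)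
    (h0 : 0 < ρ) (h1 : ρ < 1) (h0' : 0 < ρ') (h1' : ρ' < 1)
    (hnum : c2 (Fintype.card V) * Real.exp ((N : ℝ) * (s * ρ' + Real.log (1 - s * ρ'))) /
        (ρ' ^ 2 * (1 - ρ') ^ m') +
      c2 (Fintype.card V) * Real.exp ((N : ℝ) * ((1 - s) * ρ + Real.log (1 - (1 - s) * ρ))) /
        (ρ ^ 2 * (1 - ρ) ^ m) < 1) :
    ∃ S : Finset V, Rob G S m' ∧ Rob G Sᶜ m := by
  have h2 : 0 < 1 - ρ := by linarith
  have h2' : 0 < 1 - ρ' := by linarith
  have hs1' : 0 < 1 - s := by linarith
  apply exists_of_two s _ _ hs0.le hs1.le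
  have hq0 : 0 ≤ (1 - s) * ρ := by positivity
  have hq1 : (1 - s) * ρ < 1 := by nlinarith
  have hB := (rob_prob G m s ρ hs0.le hs1.le h0 h1).trans (bad_le G N h hN hV _ hq0 hq1)
  have hpos : 0 < ρ ^ 2 * (1 - ρ) ^ m := by positivity
  rw [mul_comm, ← le_div_iff₀ hpos] at hB
  have hq0' : 0 ≤ s * ρ' := by positivity
  have hq1' : s * ρ' < 1 := by nlinarith
  have hA := (rob_prob' G m' s ρ' hs0.le hs1.le h0' h1').trans (bad_le G N h hN hV _ hq0' hq1')
  have hpos' : 0 < ρ' ^ 2 * (1 - ρ') ^ m' := by positivity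
  rw [mul_comm, ← le_div_iff₀ hpos'] at hA
  linarith

/-- translation to induced subgraphs -/
theorem Good.connected {G : SimpleGraph V} {D : Finset V} (h : Good G D) (hD : D.Nonempty) :
    (G.induce (↑D : Set V)).Connected := by
  have key : ∀ u v : V, rch G D u v → ∀ (hu : u ∈ (↑D : Set V)) (hv : v ∈ (↑D : Set V)),
      (G.induce (↑D : Set V)).Reachable ⟨u, hu⟩ ⟨v, hv⟩ := by
    intro u v huv
    induction huv with
    | refl => exact fun hu hv => SimpleGraph.Reachable.refl _
    | @tail b c _ hbc ih =>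
      intro hu hv
      have hb : b ∈ (↑D : Set V) := hbc.2.1
      refine (ih hu hb).trans (SimpleGraph.Adj.reachable ?_)
      exact hbc.1
  obtain ⟨w, hw⟩ := hD
  have : Nonempty (↑(↑D : Set V)) := ⟨⟨w, hw⟩⟩
  refine SimpleGraph.Connected.mk ?_
  rintro ⟨u, hu⟩ ⟨v, hv⟩
  exact key u v (h.1 u hu v hv) hu hv

theorem Good.nonempty {G : SimpleGraph V} {D : Finset V} (h : Good G D) [Nonempty V] :
    D.Nonempty := by
  obtain ⟨v⟩ := ‹Nonempty V›
  by_cases hv : v ∈ D
  · exact ⟨v, hv⟩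
  · obtain ⟨w, hw, -⟩ := h.2 v hv
    exact ⟨w, hw⟩

/-- a good set stays connected when arbitrary vertices are added -/
theorem Good.connected_super {G : SimpleGraph V} {D : Finset V} (h : Good G D)
    (hD : D.Nonempty) (W : Set V) (hW : (↑D : Set V) ⊆ W) : (G.induce W).Connected := by
  have hc := h.connected hD
  obtain ⟨w, hw⟩ := hD
  have hwW : w ∈ W := hW (mem_coe.2 hw)
  have key : ∀ (u : V) (hu : u ∈ W), (G.induce W).Reachable ⟨u, hu⟩ ⟨w, hwW⟩ := by
    intro u hu
    have hin : ∀ (x : V) (hx : x ∈ (↑D : Set V)),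
        (G.induce W).Reachable ⟨x, hW hx⟩ ⟨w, hwW⟩ := by
      intro x hx
      have h1 := hc.preconnected ⟨x, hx⟩ ⟨w, mem_coe.2 hw⟩
      exact h1.map (SimpleGraph.induceHomOfLE G hW).toHom
    by_cases huD : u ∈ D
    · exact hin u (mem_coe.2 huD)
    · obtain ⟨x, hx, hux⟩ := h.2 u huD
      have hxW : x ∈ W := hW (mem_coe.2 hx)
      have h2 : (G.induce W).Adj ⟨u, hu⟩ ⟨x, hxW⟩ := hux
      exact h2.reachable.trans (hin x (mem_coe.2 hx))
  have : Nonempty W := ⟨⟨w, hwW⟩⟩
  refine SimpleGraph.Connected.mk ?_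
  rintro ⟨u, hu⟩ ⟨v, hv⟩
  exact (key u hu).trans (key v hv).symm

end Pool.Agent.VSamp
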