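import Pool.Agent.Lib.MP_dffe52_co.Samp2.D

/-!
# Random subsets of highly connected graphs, part E: numbers
-/

set_option autoImplicit false

namespace Pool.Agent.VSamp

theorem log_bound (x : ℝ) (h0 : 0 ≤ x) (h1 : x < 1) : x + Real.log (1 - x) ≤ -(x ^ 2 / 2) := by
  have h2 : |x| < 1 := by
    rw [abs_of_nonneg h0]
    exact h1
  have h3 := Real.hasSum_pow_div_log_of_abs_lt_one h2
  have h4 := sum_le_hasSum (Finset.range 2) (fun i _ => by positivity) h3
  rw [Finset.sum_range_succ, Finset.sum_range_one] at h4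
  norm_num at h4
  linarith

theorem exp_two_lt : Real.exp 2 < 7.59375 := by
  have h1 : Real.exp 2 = Real.exp 1 ^ 2 := by
    rw [← Real.exp_nat_mul]
    norm_num
  rw [h1]
  have h2 := Real.exp_one_lt_d9
  have h3 := Real.exp_pos 1
  nlinarith

theorem seven_lt_exp_two : (7 : ℝ) < Real.exp 2 := by
  have h1 : Real.exp 2 = Real.exp 1 ^ 2 := by
    rw [← Real.exp_nat_mul]
    norm_num
  rw [h1]
  have h2 := Real.exp_one_gt_d9
  nlinarith

theorem third_bound : (1 / 3 : ℝ) + Real.log (1 - 1 / 3) ≤ -(1 / 15) := by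
  have h1 : Real.log (1 - 1 / 3) ≤ -(2 / 5) := by
    have h2 : (1 - 1 / 3 : ℝ) = (3 / 2)⁻¹ := by norm_num
    rw [h2, Real.log_inv]
    have h3 : (2 / 5 : ℝ) ≤ Real.log (3 / 2) := by
      have h4 : (2 : ℝ) ≤ Real.log ((3 / 2) ^ 5) := by
        rw [Real.le_log_iff_exp_le (by norm_num)]
        have := exp_two_lt
        norm_num at this ⊢
        linarith
      rw [Real.log_pow] at h4
      norm_num at h4
      linarith
    linarith
  linarith

theorem two_le_exp : (2 : ℝ) ≤ Real.exp (11 / 15) := by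
  have h1 : (2 : ℝ) ^ 15 ≤ (Real.exp (11 / 15)) ^ 15 := by
    rw [← Real.exp_nat_mul]
    have h2 : ((15 : ℕ) : ℝ) * (11 / 15) = ((11 : ℕ) : ℝ) * 1 := by norm_num
    rw [h2, Real.exp_nat_mul]
    calc (2 : ℝ) ^ 15 ≤ (2.718281828 : ℝ) ^ 11 := by norm_num
      _ ≤ (Real.exp 1) ^ 11 :=
        pow_le_pow_left₀ (by norm_num) (by linarith [Real.exp_one_gt_d9]) 11
  exact le_of_pow_le_pow_left₀ (by norm_num) (Real.exp_pos _).le h1

theorem c2_lt (n : ℕ) (hn : 2 ≤ n) : c2 n < (n : ℝ) ^ 2 / 2 := by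
  unfold c2
  have h1 : (2 : ℝ) ≤ n := by exact_mod_cast hn
  nlinarith

theorem c2_pos (n : ℕ) (hn : 2 ≤ n) : 0 < c2 n := by
  unfold c2
  have h1 : (2 : ℝ) ≤ n := by exact_mod_cast hn
  nlinarith

theorem sq_eq_exp (n : ℕ) (hn : 2 ≤ n) : (n : ℝ) ^ 2 = Real.exp (2 * Real.log n) := by
  have h1 : (0 : ℝ) < n := by
    have : (2 : ℝ) ≤ n := by exact_mod_cast hn
    linarith
  have h2 : (2 : ℝ) * Real.log n = ((2 : ℕ) : ℝ) * Real.log n := by norm_num
  rw [h2, Real.exp_nat_mul, Real.exp_log h1]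

theorem num_a (n N m : ℕ) (hn : 2 ≤ n) (h : 30 * Real.log n + 11 * m + 22 ≤ N) :
    c2 n * Real.exp ((N : ℝ) * (1 / 3 + Real.log (1 - 1 / 3))) +
      c2 n * Real.exp ((N : ℝ) * ((1 - 1 / 3) * (1 / 2) + Real.log (1 - (1 - 1 / 3) * (1 / 2)))) /
        ((1 / 2) ^ 2 * (1 - 1 / 2) ^ m) < 1 := by
  have e1 : ((1 : ℝ) - 1 / 3) * (1 / 2) = 1 / 3 := by norm_num
  have e2 : ((1 / 2 : ℝ)) ^ 2 * (1 - 1 / 2) ^ m = (2 ^ (m + 2))⁻¹ := by
    have : (1 - 1 / 2 : ℝ) = 1 / 2 := by norm_num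
    rw [this, ← pow_add, one_div, inv_pow, add_comm]
  rw [e1, e2, div_inv_eq_mul]
  set E := Real.exp ((N : ℝ) * (1 / 3 + Real.log (1 - 1 / 3))) with hE
  have hN0 : (0 : ℝ) ≤ N := Nat.cast_nonneg _
  have h1 : E ≤ Real.exp (-(2 * Real.log n) - (m + 2 : ℕ) * (11 / 15)) := by
    rw [hE]
    apply Real.exp_le_exp.2
    have h2 := mul_le_mul_of_nonneg_left third_bound hN0
    push_cast
    linarith
  have h3 : Real.exp (-(2 * Real.log n) - (m + 2 : ℕ) * (11 / 15)) =
      ((n : ℝ) ^ 2 * Real.exp (11 / 15) ^ (m + 2))⁻¹ := by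
    rw [sq_eq_exp n hn, ← Real.exp_nat_mul, ← Real.exp_add, ← Real.exp_neg]
    congr 1
    ring
  rw [h3] at h1
  have h4 : (2 : ℝ) ^ (m + 2) ≤ Real.exp (11 / 15) ^ (m + 2) :=
    pow_le_pow_left₀ (by norm_num) two_le_exp _
  have hn2 : (0 : ℝ) < (n : ℝ) ^ 2 := by
    have : (2 : ℝ) ≤ n := by exact_mod_cast hn
    positivity
  have h5 : (0 : ℝ) < 2 ^ (m + 2) := by positivity
  have h6 : ((n : ℝ) ^ 2 * Real.exp (11 / 15) ^ (m + 2))⁻¹ ≤ ((n : ℝ) ^ 2 * 2 ^ (m + 2))⁻¹ := by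
    apply inv_anti₀ (by positivity)
    exact mul_le_mul_of_nonneg_left h4 hn2.le
  have h7 : E ≤ ((n : ℝ) ^ 2 * 2 ^ (m + 2))⁻¹ := h1.trans h6
  have h8 := c2_lt n hn
  have h9 : 0 < E := Real.exp_pos _
  have h10 : (1 : ℝ) ≤ 2 ^ (m + 2) := one_le_pow₀ (by norm_num)
  calc c2 n * E + c2 n * E * 2 ^ (m + 2) = c2 n * (E * (1 + 2 ^ (m + 2))) := by ring
    _ < (n : ℝ) ^ 2 / 2 * (E * (1 + 2 ^ (m + 2))) :=
        mul_lt_mul_of_pos_right h8 (by positivity)
    _ ≤ (n : ℝ) ^ 2 / 2 * (E * (2 * 2 ^ (m + 2))) := by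
        apply mul_le_mul_of_nonneg_left _ (by positivity)
        apply mul_le_mul_of_nonneg_left _ h9.le
        linarith
    _ = E * ((n : ℝ) ^ 2 * 2 ^ (m + 2)) := by ring
    _ ≤ ((n : ℝ) ^ 2 * 2 ^ (m + 2))⁻¹ * ((n : ℝ) ^ 2 * 2 ^ (m + 2)) :=
        mul_le_mul_of_nonneg_right h7 (by positivity)
    _ = 1 := inv_mul_cancel₀ (by positivity)

theorem num_b (n N m : ℕ) (δ : ℝ) (hn : 2 ≤ n) (hδ0 : 0 < δ) (hδ1 : δ < 1)
    (h : Real.exp (10 / δ) * Real.log n ≤ N) (hm : (m : ℝ) ≤ (1 - δ) * N + 2) :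
    c2 n * Real.exp ((N : ℝ) * (Real.exp (-(4 / δ)) + Real.log (1 - Real.exp (-(4 / δ))))) +
      c2 n * Real.exp ((N : ℝ) * ((1 - Real.exp (-(4 / δ))) * (1 - Real.exp (-(4 / δ))) +
        Real.log (1 - (1 - Real.exp (-(4 / δ))) * (1 - Real.exp (-(4 / δ)))))) /
        ((1 - Real.exp (-(4 / δ))) ^ 2 * (1 - (1 - Real.exp (-(4 / δ)))) ^ m) < 1 := by
  set ε := Real.exp (-(4 / δ)) with hε
  have hε0 : 0 < ε := Real.exp_pos _
  have h4δ : 4 < 4 / δ := by
    rw [lt_div_iff₀ hδ0]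
    linarith
  have hε1 : ε ≤ 1 / 2 := by
    have h1 : ε ≤ Real.exp (-1) := by
      rw [hε]
      apply Real.exp_le_exp.2
      linarith
    have h2 : Real.exp (-1) ≤ 1 / 2 := by
      rw [Real.exp_neg, one_div]
      apply inv_anti₀ (by norm_num)
      linarith [Real.exp_one_gt_d9]
    exact h1.trans h2
  have hN0 : (0 : ℝ) ≤ N := Nat.cast_nonneg _
  have hn2 : (2 : ℝ) ≤ n := by exact_mod_cast hn
  have hlog2 : (0.69 : ℝ) ≤ Real.log n := by
    have h1 : Real.log 2 ≤ Real.log n := Real.log_le_log (by norm_num) hn2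
    linarith [Real.log_two_gt_d9]
  have hlog0 : 0 < Real.log n := by linarith
  -- bounds for N
  have hNlog : 100 * Real.log n ≤ N := by
    have h1 : (100 : ℝ) ≤ Real.exp (10 / δ) := by
      have h2 : (10 : ℝ) ≤ 10 / δ := by
        rw [le_div_iff₀ hδ0]
        linarith
      have h3 : Real.exp 10 ≤ Real.exp (10 / δ) := Real.exp_le_exp.2 h2
      have h4 : (100 : ℝ) ≤ Real.exp 10 := by
        have h5 : Real.exp 10 = Real.exp 1 ^ 10 := by
          rw [← Real.exp_nat_mul]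
          norm_num
        rw [h5]
        calc (100 : ℝ) ≤ 2 ^ 10 := by norm_num
          _ ≤ Real.exp 1 ^ 10 :=
            pow_le_pow_left₀ (by norm_num) (by linarith [Real.exp_one_gt_d9]) 10
      linarith
    have h2 := mul_le_mul_of_nonneg_right h1 hlog0.le
    linarith
  have hNδ : 8 / δ ≤ N / 4 := by
    have h1 : (10 / δ) ^ 2 / 2 ≤ Real.exp (10 / δ) := by
      have h2 := Real.quadratic_le_exp_of_nonneg (x := 10 / δ) (by positivity)
      have h3 : (0 : ℝ) ≤ 10 / δ := by positivity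
      linarith
    have h2 : 50 / δ ≤ (10 / δ) ^ 2 / 2 := by
      have h3 : (10 / δ) ^ 2 / 2 = (50 / δ) * (1 / δ) := by
        field_simp
        ring
      rw [h3]
      have h4 : 1 ≤ 1 / δ := by
        rw [le_div_iff₀ hδ0]
        linarith
      have h5 : (0 : ℝ) < 50 / δ := by positivity
      nlinarith
    have h3 : 50 / δ * 0.69 ≤ N := by
      have h4 : 50 / δ ≤ Real.exp (10 / δ) := h2.trans h1
      have h5 : 50 / δ * 0.69 ≤ Real.exp (10 / δ) * Real.log n :=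
        mul_le_mul h4 hlog2 (by norm_num) (Real.exp_pos _).le
      linarith
    have h6 : 50 / δ * 0.69 = 34.5 * (1 / δ) := by ring
    have h7 : 8 / δ = 8 * (1 / δ) := by ring
    rw [h6] at h3
    rw [h7]
    have h8 : (0 : ℝ) < 1 / δ := by positivity
    linarith
  -- first term
  have hA : c2 n * Real.exp ((N : ℝ) * (ε + Real.log (1 - ε))) ≤ 1 / 4 := by
    have h1 : (N : ℝ) * (ε + Real.log (1 - ε)) ≤ -(3 * Real.log n) := by
      have h2 := log_bound ε hε0.le (by linarith)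
      have h3 := mul_le_mul_of_nonneg_left h2 hN0
      have h4 : 7 * Real.log n ≤ N * ε ^ 2 := by
        have h5 : ε ^ 2 = Real.exp (-(8 / δ)) := by
          rw [hε, ← Real.exp_nat_mul]
          congr 1
          push_cast
          ring
        rw [h5]
        have h6 : Real.exp (10 / δ) * Real.log n * Real.exp (-(8 / δ)) ≤
            N * Real.exp (-(8 / δ)) := mul_le_mul_of_nonneg_right h (Real.exp_pos _).le
        have h7 : Real.exp (10 / δ) * Real.log n * Real.exp (-(8 / δ)) =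
            Real.exp (2 / δ) * Real.log n := by
          have h8 : Real.exp (2 / δ) = Real.exp (10 / δ) * Real.exp (-(8 / δ)) := by
            rw [← Real.exp_add]
            congr 1
            ring
          rw [h8]
          ring
        have h9 : Real.exp 2 ≤ Real.exp (2 / δ) := by
          apply Real.exp_le_exp.2
          rw [le_div_iff₀ hδ0]
          linarith
        have h10 : 7 * Real.log n ≤ Real.exp (2 / δ) * Real.log n := by
          apply mul_le_mul_of_nonneg_right _ hlog0.le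
          linarith [seven_lt_exp_two]
        linarith
      nlinarith
    have h2 : c2 n * Real.exp ((N : ℝ) * (ε + Real.log (1 - ε))) ≤
        (n : ℝ) ^ 2 / 2 * Real.exp (-(3 * Real.log n)) :=
      mul_le_mul (c2_lt n hn).le (Real.exp_le_exp.2 h1) (Real.exp_pos _).le (by positivity)
    have h3 : (n : ℝ) ^ 2 / 2 * Real.exp (-(3 * Real.log n)) = (1 / 2) * (n : ℝ)⁻¹ := by
      rw [sq_eq_exp n hn]
      have h4 : (n : ℝ)⁻¹ = Real.exp (-(Real.log n)) := by
        rw [Real.exp_neg, Real.exp_log (by linarith)]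
      rw [h4]
      have h5 : Real.exp (-(Real.log n)) =
          Real.exp (2 * Real.log n) * Real.exp (-(3 * Real.log n)) := by
        rw [← Real.exp_add]
        congr 1
        ring
      rw [h5]
      ring
    have h4 : (n : ℝ)⁻¹ ≤ 1 / 2 := by
      rw [one_div]
      exact inv_anti₀ (by norm_num) hn2
    linarith
  -- second term
  have hB : c2 n * Real.exp ((N : ℝ) * ((1 - ε) * (1 - ε) +
        Real.log (1 - (1 - ε) * (1 - ε)))) / ((1 - ε) ^ 2 * (1 - (1 - ε)) ^ m) ≤ 1 / 2 := by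
    have e1 : 1 - (1 - ε) = ε := by ring
    have e2 : 1 - (1 - ε) * (1 - ε) = ε * (2 - ε) := by ring
    rw [e1, e2]
    have hpos1 : (0 : ℝ) < ε * (2 - ε) := by
      apply mul_pos hε0
      linarith
    have h1 : (1 - ε) * (1 - ε) + Real.log (ε * (2 - ε)) ≤ 1 + (0.7 - 4 / δ) := by
      have h2 : (1 - ε) * (1 - ε) ≤ 1 := by nlinarith
      have h3 : Real.log (ε * (2 - ε)) ≤ Real.log (ε * 2) := by
        apply Real.log_le_log hpos1
        apply mul_le_mul_of_nonneg_left _ hε0.le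
        linarith
      have h4 : Real.log (ε * 2) = -(4 / δ) + Real.log 2 := by
        rw [Real.log_mul hε0.ne' (by norm_num), hε, Real.log_exp]
      have h5 : Real.log 2 < 0.7 := by linarith [Real.log_two_lt_d9]
      linarith
    have h2 : Real.exp ((N : ℝ) * ((1 - ε) * (1 - ε) + Real.log (ε * (2 - ε)))) ≤
        Real.exp ((N : ℝ) * (1 + (0.7 - 4 / δ))) :=
      Real.exp_le_exp.2 (mul_le_mul_of_nonneg_left h1 hN0)
    have h3 : Real.exp (-(4 / δ * ((1 - δ) * N + 2))) ≤ ε ^ m := by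
      have h4 : ε ^ m = Real.exp ((m : ℝ) * (-(4 / δ))) := by
        rw [hε, ← Real.exp_nat_mul]
      rw [h4]
      apply Real.exp_le_exp.2
      have h5 : (0 : ℝ) < 4 / δ := by positivity
      nlinarith [mul_le_mul_of_nonneg_left hm h5.le]
    have h4 : (1 / 4 : ℝ) ≤ (1 - ε) ^ 2 := by nlinarith
    have h5 : (1 / 4 : ℝ) * Real.exp (-(4 / δ * ((1 - δ) * N + 2))) ≤ (1 - ε) ^ 2 * ε ^ m :=
      mul_le_mul h4 h3 (Real.exp_pos _).le (by positivity)
    have hpos2 : 0 < (1 / 4 : ℝ) * Real.exp (-(4 / δ * ((1 - δ) * N + 2))) := by positivity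
    have h6 : c2 n * Real.exp ((N : ℝ) * ((1 - ε) * (1 - ε) + Real.log (ε * (2 - ε)))) /
        ((1 - ε) ^ 2 * ε ^ m) ≤
        ((n : ℝ) ^ 2 / 2 * Real.exp ((N : ℝ) * (1 + (0.7 - 4 / δ)))) /
          ((1 / 4 : ℝ) * Real.exp (-(4 / δ * ((1 - δ) * N + 2)))) := by
      apply div_le_div₀ (by positivity) _ hpos2 h5
      exact mul_le_mul (c2_lt n hn).le h2 (Real.exp_pos _).le (by positivity)
    refine h6.trans ?_
    have h7 : ((n : ℝ) ^ 2 / 2 * Real.exp ((N : ℝ) * (1 + (0.7 - 4 / δ)))) /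
          ((1 / 4 : ℝ) * Real.exp (-(4 / δ * ((1 - δ) * N + 2)))) =
        2 * Real.exp (2 * Real.log n + N * (1 + (0.7 - 4 / δ)) +
          4 / δ * ((1 - δ) * N + 2)) := by
      rw [sq_eq_exp n hn, Real.exp_neg, Real.exp_add, Real.exp_add]
      have h8 : Real.exp (4 / δ * ((1 - δ) * N + 2)) ≠ 0 := (Real.exp_pos _).ne'
      field_simp
      ring
    rw [h7]
    have h8 : 2 * Real.log n + N * (1 + (0.7 - 4 / δ)) + 4 / δ * ((1 - δ) * N + 2) =
        2 * Real.log n - 2.3 * N + 8 / δ := by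
      field_simp
      ring
    rw [h8]
    have h9 : 2 * Real.log n - 2.3 * N + 8 / δ ≤ -2 := by
      have h10 : (69 : ℝ) ≤ N := by nlinarith
      linarith
    have h10 : Real.exp (2 * Real.log n - 2.3 * N + 8 / δ) ≤ Real.exp (-2) :=
      Real.exp_le_exp.2 h9
    have h11 : Real.exp (-2) ≤ 1 / 4 := by
      rw [Real.exp_neg, one_div]
      apply inv_anti₀ (by norm_num)
      linarith [seven_lt_exp_two]
    linarith
  linarith

end Pool.Agent.VSamp
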