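import Pool.Agent.Lib.MP_dffe52_co.Samp2.E
import Pool.Agent.Lib.MP_dffe52_co.Df.Fin

/-!
# Odd cycles whose removal keeps almost all of the connectivity
-/

set_option autoImplicit false

namespace Pool.Agent.VSamp

open Finset Classical SimpleGraph

/-- from a connected dominating set and a robust complement to the odd cycle -/
theorem concl (k : ℕ) (V : Type) [Fintype V] (G : SimpleGraph V) (hV : 2 ≤ Fintype.card V)
    (S : Finset V) (hS : Good G S) (hT : Rob G Sᶜ (k + 2))
    (hodd : ∃ (v : V) (p : G.Walk v v), p.IsCycle ∧ Odd p.length) :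
    ∃ (v : V) (p : G.Walk v v), p.IsCycle ∧ Odd p.length ∧
        k < ({x : V | x ∉ p.support}).ncard ∧
        ∀ S : Finset V, S.card < k →
          (G.induce ({x : V | x ∉ p.support} \ (↑S : Set V))).Connected := by
  have : Nonempty V := Fintype.card_pos_iff.1 (by omega)
  refine DFFE.final_of_robust G k (↑S : Set V) (↑(Sᶜ : Finset V) : Set V) ?_ ?_ ?_ ?_ hodd
  · rw [Finset.coe_compl]
    exact disjoint_compl_right
  · intro v hv
    obtain ⟨w, hw, ha⟩ := hS.2 v (fun h => hv (Finset.mem_coe.2 h))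
    exact ⟨w, Finset.mem_coe.2 hw, ha⟩
  · exact hS.connected hS.nonempty
  · intro Y hY
    have h1 := hT Y hY
    have h2 : ((↑(Sᶜ : Finset V) : Set V) \ (↑Y : Set V)) = (↑(Sᶜ \ Y : Finset V) : Set V) := by
      rw [Finset.coe_sdiff]
    rw [h2]
    refine ⟨?_, h1.connected h1.nonempty⟩
    intro v hv
    obtain ⟨w, hw, ha⟩ := h1.2 v (fun h => hv (Finset.mem_coe.2 h))
    exact ⟨w, Finset.mem_coe.2 hw, ha⟩

theorem two_le_card_of_cycle (V : Type) [Fintype V] (G : SimpleGraph V)
    (hodd : ∃ (v : V) (p : G.Walk v v), p.IsCycle ∧ Odd p.length) : 2 ≤ Fintype.card V := by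
  obtain ⟨v0, p0, hp0, -⟩ := hodd
  have h3 := hp0.three_le_length
  have h4 := hp0.support_nodup.length_le_card
  rw [List.length_tail, Walk.length_support] at h4
  omega

theorem main_a (k N : ℕ) (V : Type) [Fintype V] (G : SimpleGraph V)
    (hN : 30 * Real.log (Fintype.card V) + 11 * k + 44 ≤ N)
    (hG : N < Fintype.card V ∧
      ∀ S : Finset V, S.card < N → (G.induce ((↑S : Set V)ᶜ)).Connected)
    (hodd : ∃ (v : V) (p : G.Walk v v), p.IsCycle ∧ Odd p.length) :
    ∃ (v : V) (p : G.Walk v v), p.IsCycle ∧ Odd p.length ∧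
        k < ({x : V | x ∉ p.support}).ncard ∧
        ∀ S : Finset V, S.card < k →
          (G.induce ({x : V | x ∉ p.support} \ (↑S : Set V))).Connected := by
  have hV := two_le_card_of_cycle V G hodd
  have hnum := num_a (Fintype.card V) N (k + 2) hV (by push_cast; linarith)
  obtain ⟨S, hS, hT⟩ := exists_robust G N (k + 2) (sepn_of_conn G N hG.2) hG.1 hV (1 / 3) (1 / 2)
    (by norm_num) (by norm_num) (by norm_num) (by norm_num) hnum
  exact concl k V G hV S hS hT hodd

theorem main_b (δ : ℝ) (hδ0 : 0 < δ) (hδ1 : δ < 1) (k N : ℕ) (V : Type) [Fintype V]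
    (G : SimpleGraph V) (hN : Real.exp (10 / δ) * Real.log (Fintype.card V) ≤ N)
    (hk : (k : ℝ) ≤ (1 - δ) * N)
    (hG : N < Fintype.card V ∧
      ∀ S : Finset V, S.card < N → (G.induce ((↑S : Set V)ᶜ)).Connected)
    (hodd : ∃ (v : V) (p : G.Walk v v), p.IsCycle ∧ Odd p.length) :
    ∃ (v : V) (p : G.Walk v v), p.IsCycle ∧ Odd p.length ∧
        k < ({x : V | x ∉ p.support}).ncard ∧
        ∀ S : Finset V, S.card < k →
          (G.induce ({x : V | x ∉ p.support} \ (↑S : Set V))).Connected := by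
  have hV := two_le_card_of_cycle V G hodd
  have hnum := num_b (Fintype.card V) N (k + 2) δ hV hδ0 hδ1 hN (by push_cast; linarith)
  have hε0 : 0 < Real.exp (-(4 / δ)) := Real.exp_pos _
  have hε1 : Real.exp (-(4 / δ)) < 1 := by
    rw [Real.exp_lt_one_iff]
    have : 0 < 4 / δ := by positivity
    linarith
  obtain ⟨S, hS, hT⟩ := exists_robust G N (k + 2) (sepn_of_conn G N hG.2) hG.1 hV
    (Real.exp (-(4 / δ))) (1 - Real.exp (-(4 / δ))) hε0 hε1 (by linarith) (by linarith) hnum
  exact concl k V G hV S hS hT hodd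

end Pool.Agent.VSamp
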